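import Pool.Agent.Helper76.LW.Mass

set_option autoImplicit false

/-!
# Counting zeros with the logarithmic derivative
-/

namespace Pool.Agent.Helper76.GL

open Complex Filter Topology
open scoped ComplexConjugate
open Pool.Agent.Helper76.LW (Cf LBc)

/-- zeros `v i` with multiplicities `m i` in the strip `|Re| ≤ β`, whose density is governed by the real part
of a logarithmic derivative -/
structure Rp {ι : Type*} (v : ι → ℂ) (m : ι → ℝ) (β D : ℝ) : Prop where
  one_le : ∀ i, 1 ≤ m i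
  β0 : 0 ≤ β
  strip : ∀ i, |(v i).re| ≤ β
  rep : ∃ f : ℝ → ℝ → ℝ, (∀ x y : ℝ, β < x → HasSum (fun i => m i * (1 / (x + y * I - v i)).re) (f x y)) ∧
    ∃ x0 : ℝ, β < x0 ∧ ∀ x : ℝ, x0 ≤ x → ∃ C : ℝ, 0 ≤ C ∧ ∀ y : ℝ, |f x y - D * Real.log (2 + |y|)| ≤ C

lemma re_inv (x y : ℝ) (w : ℂ) : (1 / ((x : ℂ) + y * I - w)).re =
    (x - w.re) / ((x - w.re) ^ 2 + (y - w.im) ^ 2) := by
  rw [one_div, Complex.inv_re, Complex.normSq_apply]
  have h1 : ((x : ℂ) + y * I - w).re = x - w.re := by simp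
  have h2 : ((x : ℂ) + y * I - w).im = y - w.im := by simp
  rw [h1, h2]
  ring_nf

variable {ι : Type*} {v : ι → ℂ} {m : ι → ℝ} {β D : ℝ}

lemma Rp.m_nonneg (h : Rp v m β D) (i : ι) : 0 ≤ m i := by linarith [h.one_le i]

/-- two-sided bounds for the terms -/
lemma Rp.term_pos (h : Rp v m β D) {x : ℝ} (hx : β < x) (y : ℝ) (i : ι) :
    0 ≤ m i * (1 / ((x : ℂ) + y * I - v i)).re := by
  rw [re_inv]
  have h1 := abs_le.1 (h.strip i)
  have := h.m_nonneg i
  have h2 : 0 < x - (v i).re := by linarith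
  positivity

lemma log_two_le (y : ℝ) : Real.log 2 ≤ Real.log (2 + |y|) :=
  Real.log_le_log (by norm_num) (by linarith [abs_nonneg y])

lemma log_two_pos' (y : ℝ) : 0 < Real.log (2 + |y|) := by
  have := Real.log_pos (show (1 : ℝ) < 2 by norm_num)
  linarith [log_two_le y]

/-- local upper bound -/
lemma Rp.local_upper (h : Rp v m β D) (r : ℝ) : ∃ B : ℝ, 0 < B ∧ ∀ (y : ℝ) (S : Finset ι),
    (∀ i ∈ S, |(v i).im - y| ≤ r) → ∑ i ∈ S, m i ≤ B * Real.log (2 + |y|) := by
  obtain ⟨f, hf, x0, hx0, hasy⟩ := h.rep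
  obtain ⟨C, hC, hb⟩ := hasy x0 le_rfl
  have hβ := h.β0
  have hq : 0 < (x0 + β) ^ 2 + r ^ 2 := by nlinarith [sq_nonneg r]
  set κ : ℝ := (x0 - β) / ((x0 + β) ^ 2 + r ^ 2) with hκ
  have hκ0 : 0 < κ := by
    have : 0 < x0 - β := by linarith
    positivity
  have hl2 : 0 < Real.log 2 := Real.log_pos (by norm_num)
  refine ⟨(|D| + C / Real.log 2) / κ + 1, by positivity, fun y S hS => ?_⟩
  have h1 : ∑ i ∈ S, m i * κ ≤ f x0 y := by
    refine le_trans ?_ (sum_le_hasSum S (fun i _ => h.term_pos hx0 y i) (hf x0 y hx0))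
    refine Finset.sum_le_sum fun i hi => ?_
    refine mul_le_mul_of_nonneg_left ?_ (h.m_nonneg i)
    rw [re_inv, hκ]
    have h2 := abs_le.1 (h.strip i)
    have h3 := abs_le.1 (hS i hi)
    have h4 : 0 < x0 - (v i).re := by linarith
    have h5 : (y - (v i).im) ^ 2 ≤ r ^ 2 := by nlinarith
    have h6 : (x0 - (v i).re) ^ 2 ≤ (x0 + β) ^ 2 := by
      apply pow_le_pow_left₀ h4.le
      linarith
    apply div_le_div₀ (by linarith) (by linarith) (by positivity) (by linarith)
  rw [← Finset.sum_mul] at h1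
  have h2 : f x0 y ≤ D * Real.log (2 + |y|) + C := by
    have := (abs_le.1 (hb y)).2
    linarith
  have hlog := log_two_le y
  have h3 : D * Real.log (2 + |y|) + C ≤ (|D| + C / Real.log 2) * Real.log (2 + |y|) := by
    have e1 : D * Real.log (2 + |y|) ≤ |D| * Real.log (2 + |y|) :=
      mul_le_mul_of_nonneg_right (le_abs_self D) (log_two_pos' y).le
    have e2 : C ≤ C / Real.log 2 * Real.log (2 + |y|) := by
      calc C = C / Real.log 2 * Real.log 2 := by field_simp
        _ ≤ C / Real.log 2 * Real.log (2 + |y|) := by gcongr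
    linarith
  have h4 : (∑ i ∈ S, m i) ≤ (|D| + C / Real.log 2) / κ * Real.log (2 + |y|) := by
    rw [div_mul_eq_mul_div, le_div_iff₀ hκ0]
    linarith
  have h5 : 0 ≤ Real.log (2 + |y|) := (log_two_pos' y).le
  linarith

/-- finitely many in each window -/
lemma Rp.finite (h : Rp v m β D) (y r : ℝ) : {i | |(v i).im - y| ≤ r}.Finite := by
  obtain ⟨B, hB, hb⟩ := h.local_upper r
  by_contra hinf
  have hinf : {i | |(v i).im - y| ≤ r}.Infinite := hinf
  obtain ⟨S, hS1, hS2⟩ := hinf.exists_subset_card_eq (⌈B * Real.log (2 + |y|)⌉₊ + 1)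
  have h1 := hb y S fun i hi => hS1 hi
  have h2 : (S.card : ℝ) ≤ ∑ i ∈ S, m i := by
    calc (S.card : ℝ) = ∑ _i ∈ S, (1 : ℝ) := by simp
      _ ≤ _ := Finset.sum_le_sum fun i _ => h.one_le i
  rw [hS2] at h2
  have h3 := Nat.le_ceil (B * Real.log (2 + |y|))
  push_cast at h2
  linarith

/-- local lower bound -/
lemma Rp.local_lower (h : Rp v m β D) (hD : 0 < D) : ∃ r c y0 : ℝ, 0 < r ∧ 0 < c ∧ 1 ≤ y0 ∧ ∀ y : ℝ, y0 ≤ y →
    ∀ S : Finset ι, (∀ i, |(v i).im - y| < r → i ∈ S) → c * Real.log y ≤ ∑ i ∈ S, m i := by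
  classical
  obtain ⟨f, hf, x0, hx0, hasy⟩ := h.rep
  have hβ := h.β0
  set q : ℝ := x0 + β with hq
  have hq0 : 0 < q := by linarith
  obtain ⟨C1, hC1, hb1⟩ := hasy x0 le_rfl
  obtain ⟨C2, hC2, hb2⟩ := hasy (x0 + q) (by linarith)
  set p : ℝ := x0 - β with hp
  have hp0 : 0 < p := by linarith
  set C3 : ℝ := C1 + C2 with hC3
  refine ⟨4 * q, p * (D / 6), max 1 (Real.exp (6 * C3 / D)), by positivity, by positivity, le_max_left _ _,
    fun y hy S hS => ?_⟩
  have hy1 : 1 ≤ y := (le_max_left _ _).trans hy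
  have hy0 : 0 < y := by linarith
  have hlogC : 6 * C3 / D ≤ Real.log y := by
    rw [Real.le_log_iff_exp_le hy0]
    exact (le_max_right _ _).trans hy
  have hlogy : Real.log y ≤ Real.log (2 + |y|) := by
    apply Real.log_le_log hy0
    rw [abs_of_pos hy0]
    linarith
  set t1 : ι → ℝ := fun i => m i * (1 / ((x0 : ℂ) + y * I - v i)).re with ht1
  set t2 : ι → ℝ := fun i => m i * (1 / (((x0 + q : ℝ) : ℂ) + y * I - v i)).re with ht2
  have hs1 := hf x0 y hx0
  have hs2 := hf (x0 + q) y (by linarith)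
  have ht1n : ∀ i, 0 ≤ t1 i := h.term_pos hx0 y
  have ht2n : ∀ i, 0 ≤ t2 i := h.term_pos (by linarith) y
  -- the comparison of the terms
  have hcmp : ∀ i, i ∉ S → 3 / 2 * t1 i ≤ t2 i := by
    intro i hi
    have hfar : 4 * q ≤ |(v i).im - y| := by
      by_contra hlt
      push Not at hlt
      exact hi (hS i hlt)
    rw [ht1, ht2]
    show 3 / 2 * (m i * _) ≤ m i * _
    rw [re_inv, re_inv]
    have h2 := abs_le.1 (h.strip i)
    set a := x0 - (v i).re with ha
    have ha0 : 0 < a := by linarith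
    have haq : a ≤ q := by linarith
    have e1 : x0 + q - (v i).re = a + q := by rw [ha]; ring
    rw [e1]
    set d := y - (v i).im with hd
    have hd2 : (4 * q) ^ 2 ≤ d ^ 2 := by
      have h3 : |(v i).im - y| ^ 2 = d ^ 2 := by rw [sq_abs, hd]; ring
      rw [← h3]
      gcongr
    have key : 3 / 2 * (a / (a ^ 2 + d ^ 2)) ≤ (a + q) / ((a + q) ^ 2 + d ^ 2) := by
      have hA : 0 < a ^ 2 + d ^ 2 := by positivity
      have hB : 0 < (a + q) ^ 2 + d ^ 2 := by positivity
      rw [← mul_div_assoc, div_le_div_iff₀ hA hB]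
      have e2 : (a + q) ^ 2 ≤ 4 * q ^ 2 := by nlinarith
      have e3 : 0 ≤ q - a := by linarith
      have e4 : 3 / 2 * a * ((a + q) ^ 2 + d ^ 2) ≤ 3 / 2 * a * (4 * q ^ 2 + d ^ 2) := by gcongr
      have e5 : 2 * a * (a ^ 2 + d ^ 2) ≤ (a + q) * (a ^ 2 + d ^ 2) := by
        apply mul_le_mul_of_nonneg_right _ hA.le
        linarith
      have e6 : 3 / 2 * a * (4 * q ^ 2 + d ^ 2) ≤ 2 * a * (a ^ 2 + d ^ 2) := by
        have : 0 ≤ a * (a ^ 2 * 2 + (1 / 2 * d ^ 2 - 6 * q ^ 2)) := by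
          apply mul_nonneg ha0.le
          nlinarith [sq_nonneg a, sq_nonneg q]
        nlinarith
      linarith
    calc 3 / 2 * (m i * (a / (a ^ 2 + d ^ 2))) = m i * (3 / 2 * (a / (a ^ 2 + d ^ 2))) := by ring
      _ ≤ _ := mul_le_mul_of_nonneg_left key (h.m_nonneg i)
  -- the sums
  have hsumS : HasSum (fun i => if i ∈ S then t1 i else 0) (∑ i ∈ S, t1 i) := by
    have h7 : HasSum (fun i => if i ∈ S then t1 i else 0) (∑ i ∈ S, if i ∈ S then t1 i else 0) :=
      hasSum_sum_of_ne_finset_zero (by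
        intro i hi
        simp [hi])
    rwa [Finset.sum_congr rfl (fun i hi => if_pos hi)] at h7
  have hle : 3 / 2 * f x0 y - 3 / 2 * ∑ i ∈ S, t1 i ≤ f (x0 + q) y := by
    refine hasSum_le (fun i => ?_) ((hs1.mul_left (3 / 2)).sub (hsumS.mul_left (3 / 2))) hs2
    by_cases hi : i ∈ S
    · simp only [hi, if_true]
      have := ht2n i
      show 3 / 2 * t1 i - 3 / 2 * t1 i ≤ t2 i
      linarith
    · simp only [hi, if_false]
      have := hcmp i hi
      show 3 / 2 * t1 i - 3 / 2 * 0 ≤ t2 i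
      linarith
  have hnear : ∑ i ∈ S, t1 i ≤ (∑ i ∈ S, m i) / p := by
    rw [Finset.sum_div]
    refine Finset.sum_le_sum fun i _ => ?_
    rw [ht1]
    show m i * _ ≤ _
    rw [re_inv, div_eq_mul_one_div (m i)]
    refine mul_le_mul_of_nonneg_left ?_ (h.m_nonneg i)
    have h2 := abs_le.1 (h.strip i)
    have ha0 : p ≤ x0 - (v i).re := by rw [hp]; linarith
    have ha1 : 0 < x0 - (v i).re := by linarith
    rw [div_le_div_iff₀ (by positivity) hp0]
    nlinarith [sq_nonneg (y - (v i).im)]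
  have h1 := (abs_le.1 (hb1 y)).1
  have h2 := (abs_le.1 (hb2 y)).2
  have h3 : D / 3 * Real.log y - 2 / 3 * C3 - C1 / 3 ≤ ∑ i ∈ S, t1 i := by
    have : 0 ≤ D * (Real.log (2 + |y|) - Real.log y) := by
      apply mul_nonneg hD.le
      linarith
    nlinarith
  have h4 : C3 ≤ D / 6 * Real.log y := by
    rw [div_le_iff₀ hD] at hlogC
    linarith
  have h5 : D / 6 * Real.log y ≤ ∑ i ∈ S, t1 i := by
    linarith
  have h6 := h5.trans hnear
  rw [le_div_iff₀ hp0] at h6
  linarith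

/-- the zeros form a configuration -/
theorem Rp.cf (h : Rp v m β D) {b : ℝ} (hb0 : 0 < b) (hb : ∀ i, |(v i).re| < b)
    (hrefl : ∃ σ : ι ≃ ι, (∀ i, v (σ i) = -conj (v i)) ∧ ∀ i, m (σ i) = m i)
    (hcj : ∃ γ : ι ≃ ι, (∀ i, v (γ i) = conj (v i)) ∧ ∀ i, m (γ i) = m i) :
    Cf (fun i => v i / (2 * b : ℝ)) m := by
  have him : ∀ i, (v i / ((2 * b : ℝ) : ℂ)).im = (v i).im / (2 * b) := fun i => by
    rw [Complex.div_ofReal_im]
  have hre : ∀ i, (v i / ((2 * b : ℝ) : ℂ)).re = (v i).re / (2 * b) := fun i => by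
    rw [Complex.div_ofReal_re]
  have hre2 : ∀ i, |(v i / ((2 * b : ℝ) : ℂ)).re| < 1 / 2 := by
    intro i
    rw [hre, abs_div, abs_of_pos (show 0 < 2 * b by linarith), div_lt_div_iff₀ (by linarith) (by norm_num)]
    linarith [hb i]
  refine ⟨h.one_le, hre2, ?_, ?_, ?_, ?_, ?_⟩
  · -- summability
    obtain ⟨f, hf, x0, hx0, -⟩ := h.rep
    have hβ := h.β0
    have hs := (hf x0 0 hx0).summable
    set K : ℝ := (x0 + β) ^ 2 + (2 * b) ^ 2 with hK
    have hK0 : 0 < K := by positivity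
    have hp : 0 < x0 - β := by linarith
    refine Summable.of_nonneg_of_le (fun i => div_nonneg (h.m_nonneg i) (by positivity)) (fun i => ?_)
      (hs.mul_left (K / (x0 - β)))
    rw [re_inv, him]
    have h2 := abs_le.1 (h.strip i)
    have ha0 : x0 - β ≤ x0 - (v i).re := by linarith
    have ha1 : 0 < x0 - (v i).re := by linarith
    set t := (v i).im with ht
    have hbt : |t| = 2 * b * |t / (2 * b)| := by
      rw [abs_div, abs_of_pos (show 0 < 2 * b by linarith)]
      field_simp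
    have e1 : (x0 - (v i).re) ^ 2 + (0 - t) ^ 2 ≤ K * (1 + |t / (2 * b)|) ^ 2 := by
      have e2 : (0 - t) ^ 2 = (2 * b) ^ 2 * |t / (2 * b)| ^ 2 := by
        rw [← mul_pow, ← hbt, sq_abs]
        ring
      rw [e2, hK]
      have e3 : (x0 - (v i).re) ^ 2 ≤ (x0 + β) ^ 2 := by
        apply pow_le_pow_left₀ ha1.le
        linarith
      have e4 := abs_nonneg (t / (2 * b))
      have e5 : 1 ≤ (1 + |t / (2 * b)|) ^ 2 := by nlinarith
      have e6 : |t / (2 * b)| ^ 2 ≤ (1 + |t / (2 * b)|) ^ 2 := by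
        apply pow_le_pow_left₀ e4
        linarith
      have e7 : (x0 + β) ^ 2 ≤ (x0 + β) ^ 2 * (1 + |t / (2 * b)|) ^ 2 := by
        nlinarith [sq_nonneg (x0 + β)]
      have e8 : (2 * b) ^ 2 * |t / (2 * b)| ^ 2 ≤ (2 * b) ^ 2 * (1 + |t / (2 * b)|) ^ 2 := by gcongr
      nlinarith
    have hden : 0 < (x0 - (v i).re) ^ 2 + (0 - t) ^ 2 := by positivity
    have e9 : 1 / (1 + |t / (2 * b)|) ^ 2 ≤ K / (x0 - β) * ((x0 - (v i).re) / ((x0 - (v i).re) ^ 2 + (0 - t) ^ 2)) := by
      rw [div_mul_div_comm, div_le_div_iff₀ (by positivity) (by positivity)]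
      calc 1 * ((x0 - β) * ((x0 - (v i).re) ^ 2 + (0 - t) ^ 2)) ≤
          (x0 - (v i).re) * (K * (1 + |t / (2 * b)|) ^ 2) := by
            rw [one_mul]
            gcongr
        _ = K * (x0 - (v i).re) * (1 + |t / (2 * b)|) ^ 2 := by ring
    calc m i / (1 + |t / (2 * b)|) ^ 2 = m i * (1 / (1 + |t / (2 * b)|) ^ 2) := by ring
      _ ≤ m i * (K / (x0 - β) * ((x0 - (v i).re) / ((x0 - (v i).re) ^ 2 + (0 - t) ^ 2))) :=
          mul_le_mul_of_nonneg_left e9 (h.m_nonneg i)
      _ = K / (x0 - β) * (m i * ((x0 - (v i).re) / ((x0 - (v i).re) ^ 2 + (0 - t) ^ 2))) := by ring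
  · obtain ⟨σ, h1, h2⟩ := hrefl
    refine ⟨σ, fun i => ?_, h2⟩
    show v (σ i) / _ = -conj (v i / _)
    rw [h1, map_div₀, Complex.conj_ofReal]
    ring
  · obtain ⟨γ, h1, h2⟩ := hcj
    refine ⟨γ, fun i => ?_, h2⟩
    show v (γ i) / _ = conj (v i / _)
    rw [h1, map_div₀, Complex.conj_ofReal]
  · -- distance from the point 1/2
    have hne : ∀ i, 0 < ‖1 / 2 - v i / ((2 * b : ℝ) : ℂ)‖ := by
      intro i
      rw [norm_pos_iff]
      intro h0
      have h1 := congrArg Complex.re h0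
      rw [Complex.sub_re] at h1
      have h2 := (abs_lt.1 (hre2 i)).2
      simp only [Complex.zero_re] at h1
      have h3 : (1 / 2 : ℂ).re = 1 / 2 := by norm_num
      rw [h3] at h1
      linarith
    have hfin := h.finite 0 (2 * b)
    obtain ⟨κ, hκ0, hκ⟩ : ∃ κ : ℝ, 0 < κ ∧ ∀ i ∈ hfin.toFinset, κ ≤ ‖1 / 2 - v i / ((2 * b : ℝ) : ℂ)‖ := by
      rcases hfin.toFinset.eq_empty_or_nonempty with he | he
      · refine ⟨1, one_pos, fun i hi => ?_⟩
        rw [he] at hi
        exact absurd hi (Finset.notMem_empty _)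
      · obtain ⟨i0, h0, h1⟩ := Finset.exists_min_image hfin.toFinset
          (fun i => ‖1 / 2 - v i / ((2 * b : ℝ) : ℂ)‖) he
        exact ⟨_, hne i0, h1⟩
    refine ⟨min κ 1, by positivity, fun i => ?_⟩
    by_cases hi : |(v i).im| ≤ 2 * b
    · refine (min_le_left _ _).trans (hκ i ?_)
      rw [Set.Finite.mem_toFinset]
      show |(v i).im - 0| ≤ 2 * b
      rwa [sub_zero]
    · refine (min_le_right _ _).trans ?_
      push Not at hi
      have h1 := Complex.abs_im_le_norm (1 / 2 - v i / ((2 * b : ℝ) : ℂ))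
      have h2 : (1 / 2 - v i / ((2 * b : ℝ) : ℂ)).im = -((v i).im / (2 * b)) := by
        rw [Complex.sub_im, him]
        norm_num
      rw [h2, abs_neg, abs_div, abs_of_pos (show 0 < 2 * b by linarith)] at h1
      refine le_trans ?_ h1
      rw [le_div_iff₀ (by linarith)]
      linarith
  · -- local counts
    obtain ⟨B, hB, hloc⟩ := h.local_upper (2 * b)
    have hl2 : 0 < Real.log 2 := Real.log_pos (by norm_num)
    have hlb : 0 ≤ Real.log (1 + 2 * b) := Real.log_nonneg (by linarith)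
    refine ⟨B * (1 + Real.log (1 + 2 * b) / Real.log 2), by positivity, fun n S hS => ?_⟩
    have h1 := hloc (2 * b * n) S (by
      intro i hi
      have h2 := hS i hi
      rw [him] at h2
      have h3 := Int.floor_le ((v i).im / (2 * b))
      have h4 := Int.lt_floor_add_one ((v i).im / (2 * b))
      rw [h2] at h3 h4
      rw [le_div_iff₀ (by linarith)] at h3
      rw [div_lt_iff₀ (by linarith)] at h4
      rw [abs_le]
      constructor <;> linarith)
    refine h1.trans ?_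
    have hn := abs_nonneg (n : ℝ)
    have h2 : Real.log (2 + |2 * b * (n : ℝ)|) ≤ Real.log (2 + |(n : ℝ)|) + Real.log (1 + 2 * b) := by
      rw [← Real.log_mul (by positivity) (by positivity)]
      apply Real.log_le_log (by positivity)
      rw [abs_mul, abs_of_pos (show 0 < 2 * b by linarith)]
      nlinarith [mul_nonneg hb0.le hn]
    have h3 := log_two_le (n : ℝ)
    have h4 : Real.log (1 + 2 * b) ≤ Real.log (1 + 2 * b) / Real.log 2 * Real.log (2 + |(n : ℝ)|) := by
      calc Real.log (1 + 2 * b) = Real.log (1 + 2 * b) / Real.log 2 * Real.log 2 := by field_simp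
        _ ≤ _ := by gcongr
    calc B * Real.log (2 + |2 * b * (n : ℝ)|) ≤
        B * (Real.log (2 + |(n : ℝ)|) + Real.log (1 + 2 * b) / Real.log 2 * Real.log (2 + |(n : ℝ)|)) := by
          gcongr
          linarith
      _ = B * (1 + Real.log (1 + 2 * b) / Real.log 2) * Real.log (2 + |(n : ℝ)|) := by ring

/-- lower bound for the number of zeros in short intervals -/
theorem Rp.lbc (h : Rp v m β D) (hD : 0 < D) {b : ℝ} (hb0 : 0 < b) : LBc (fun i => v i / (2 * b : ℝ)) m := by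
  classical
  have him : ∀ i, (v i / ((2 * b : ℝ) : ℂ)).im = (v i).im / (2 * b) := fun i => by
    rw [Complex.div_ofReal_im]
  obtain ⟨r, c, y0, hr, hc, hy0, hlow⟩ := h.local_lower hD
  have hT00 : (2 : ℝ) ≤ max 2 (max (max (y0 / (2 * b)) (1 / (4 * b ^ 2))) (Real.exp 1)) := le_max_left _ _
  refine ⟨c * b / (4 * r), max 1 (2 * r / b), max 2 (max (max (y0 / (2 * b)) (1 / (4 * b ^ 2))) (Real.exp 1)),
    by positivity, le_max_left _ _, hT00, fun T hT L hL1 hL2 => ?_⟩
  have hT2 : 2 ≤ T := hT00.trans hT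
  have hTe : Real.exp 1 ≤ T := ((le_max_right _ _).trans (le_max_right _ _)).trans hT
  have hTy : y0 / (2 * b) ≤ T := (((le_max_left _ _).trans (le_max_left _ _)).trans (le_max_right _ _)).trans hT
  have hTb : 1 / (4 * b ^ 2) ≤ T := (((le_max_right _ _).trans (le_max_left _ _)).trans (le_max_right _ _)).trans hT
  have hlog1 : 1 ≤ Real.log T := by
    rw [Real.le_log_iff_exp_le (by linarith)]
    exact hTe
  have hTy' : y0 ≤ 2 * b * T := by
    rw [div_le_iff₀ (by linarith)] at hTy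
    linarith
  have hlogb : Real.log T / 2 ≤ Real.log (2 * b * T) := by
    have h1 : T ≤ (2 * b * T) ^ 2 := by
      rw [div_le_iff₀ (by positivity)] at hTb
      nlinarith
    have h2 : Real.log T ≤ Real.log ((2 * b * T) ^ 2) := Real.log_le_log (by linarith) h1
    rw [Real.log_pow] at h2
    push_cast at h2
    linarith
  have hL0 : 2 * r / b ≤ L := by
    refine le_trans ?_ hL1
    calc 2 * r / b = 2 * r / b * 1 := by ring
      _ ≤ max 1 (2 * r / b) * Real.log T := by
          gcongr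
          exact le_max_right _ _
  have hLpos : 0 < L := lt_of_lt_of_le (by positivity) hL0
  obtain ⟨n, hn⟩ : ∃ n : ℕ, n = ⌊b * L / r⌋₊ := ⟨_, rfl⟩
  have hn1 : (n : ℝ) ≤ b * L / r := by rw [hn]; exact Nat.floor_le (by positivity)
  have hn2 : b * L / r < n + 1 := by rw [hn]; exact Nat.lt_floor_add_one _
  have hn3 : b * L / (2 * r) ≤ n := by
    have h1 : 2 ≤ b * L / r := by
      rw [div_le_iff₀ hb0] at hL0
      rw [le_div_iff₀ hr]
      linarith
    have h2 : b * L / (2 * r) = b * L / r / 2 := by field_simp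
    rw [h2]
    linarith
  have hn4 : (n : ℝ) * r ≤ b * L := by rwa [le_div_iff₀ hr] at hn1
  -- the windows
  set y : ℕ → ℝ := fun k => 2 * b * T + r * (2 * k + 1) with hy
  set Sk : ℕ → Finset ι := fun k => (h.finite (y k) r).toFinset.filter (fun i => |(v i).im - y k| < r) with hSk
  have hSkmem : ∀ k i, i ∈ Sk k ↔ |(v i).im - y k| < r := by
    intro k i
    rw [hSk]
    simp only [Finset.mem_filter, Set.Finite.mem_toFinset, Set.mem_ofPred_eq]
    exact ⟨fun h => h.2, fun h => ⟨h.le, h⟩⟩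
  have hdisj : (Finset.range n : Set ℕ).PairwiseDisjoint Sk := by
    intro k _ l _ hkl
    rw [Function.onFun, Finset.disjoint_left]
    intro i hi hj
    rw [hSkmem, abs_lt] at hi hj
    rw [hy] at hi hj
    simp only at hi hj
    rcases lt_or_gt_of_ne hkl with hlt | hlt
    · have h1 : (k : ℝ) + 1 ≤ l := by exact_mod_cast hlt
      nlinarith
    · have h1 : (l : ℝ) + 1 ≤ k := by exact_mod_cast hlt
      nlinarith
  refine ⟨(Finset.range n).biUnion Sk, fun i hi => ?_, ?_⟩
  · rw [Finset.mem_biUnion] at hi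
    obtain ⟨k, hk, hik⟩ := hi
    rw [Finset.mem_range] at hk
    rw [hSkmem, abs_lt] at hik
    rw [him]
    rw [hy] at hik
    simp only at hik
    have h1 : (k : ℝ) + 1 ≤ n := by exact_mod_cast hk
    have h0 : (0 : ℝ) ≤ k := Nat.cast_nonneg k
    rw [le_div_iff₀ (by linarith), div_le_iff₀ (by linarith)]
    constructor
    · nlinarith [mul_nonneg hr.le h0]
    · nlinarith [mul_le_mul_of_nonneg_right h1 hr.le]
  · rw [Finset.sum_biUnion hdisj]
    have h1 : ∀ k ∈ Finset.range n, c * (Real.log T / 2) ≤ ∑ i ∈ Sk k, m i := by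
      intro k _
      have hyk : 2 * b * T ≤ y k := by
        rw [hy]
        have h0 : (0 : ℝ) ≤ k := Nat.cast_nonneg k
        show 2 * b * T ≤ 2 * b * T + r * (2 * k + 1)
        have : 0 ≤ r * (2 * k + 1) := by positivity
        linarith
      have h2 := hlow (y k) (by linarith) (Sk k) fun i hi => (hSkmem k i).2 hi
      refine le_trans ?_ h2
      have h3 : Real.log (2 * b * T) ≤ Real.log (y k) := Real.log_le_log (by positivity) hyk
      have h4 : Real.log T / 2 ≤ Real.log (y k) := by linarith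
      gcongr
    refine le_trans ?_ (Finset.card_nsmul_le_sum _ _ _ h1)
    rw [Finset.card_range, nsmul_eq_mul]
    calc c * b / (4 * r) * L * Real.log T = b * L / (2 * r) * (c * (Real.log T / 2)) := by
          field_simp
          ring
      _ ≤ n * (c * (Real.log T / 2)) := by gcongr

end Pool.Agent.Helper76.GL
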