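import Pool.Agent.Helper76.GL.Rep2
import Pool.Agent.Helper76.GL.Cnt

set_option autoImplicit false

/-!
# The zeros of a completed L-function as a configuration
-/

namespace Pool.Agent.Helper76.GL

open Complex Filter Topology Metric
open Pool.Agent.Helper40.HW
open Pool.Agent.Helper76.LW (Cf LBc)

variable {m k : ℕ} {μ : Fin m → ℝ} {ρ : Fin k → ℂ} {A c β : ℝ} {D F : ℂ → ℂ} {ε : ℂ}

/-- multiplicities -/
noncomputable def mF (F : ℂ → ℂ) (w : Zf F) : ℝ := (analyticOrderNatAt F (w : ℂ) : ℝ)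

/-- centred zeros -/
noncomputable def vF (F : ℂ → ℂ) (c : ℝ) (w : Zf F) : ℂ := (w : ℂ) - c

lemma ord_conj_le {F : ℂ → ℂ} (hF : Differentiable ℂ F)
    (hc : ∀ s, F (starRingEnd ℂ s) = starRingEnd ℂ (F s)) (z : ℂ) (n : ℕ)
    (h : (n : ℕ∞) ≤ analyticOrderAt F z) : (n : ℕ∞) ≤ analyticOrderAt F (starRingEnd ℂ z) := by
  rw [natCast_le_analyticOrderAt (hF.analyticAt _)] at h ⊢
  obtain ⟨g, hg, hgeq⟩ := h
  have hcj : Tendsto (starRingEnd ℂ) (𝓝 (starRingEnd ℂ z)) (𝓝 z) := by
    have := (Complex.continuous_conj).tendsto (starRingEnd ℂ z)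
    simpa using this
  refine ⟨fun w => starRingEnd ℂ (g (starRingEnd ℂ w)), ?_, ?_⟩
  · have hg1 : ∀ᶠ w in 𝓝 z, DifferentiableAt ℂ g w := by
      filter_upwards [hg.eventually_analyticAt] with w hw using hw.differentiableAt
    rw [Complex.analyticAt_iff_eventually_differentiableAt]
    filter_upwards [hcj.eventually hg1] with w hw
    exact differentiableAt_conj_conj_iff.2 hw
  · filter_upwards [hcj.eventually hgeq] with w hw
    have h2 : F w = starRingEnd ℂ (F (starRingEnd ℂ w)) := by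
      rw [hc]; simp
    rw [h2, hw]
    simp

lemma order_ne_top (h : LF μ ρ A c β D F ε) (z : ℂ) : analyticOrderAt F z ≠ ⊤ := by
  have h1 : F ((c + β + 1 : ℝ) : ℂ) ≠ 0 := h.zero_free (by
    rw [Complex.ofReal_re]
    linarith)
  exact H370.Loc.order_ne_top (isPreconnected_univ) (fun z _ => h.diff.analyticAt z)
    (Set.mem_univ ((c + β + 1 : ℝ) : ℂ)) h1 (Set.mem_univ z)

lemma order_conj (h : LF μ ρ A c β D F ε) (z : ℂ) :
    analyticOrderNatAt F (starRingEnd ℂ z) = analyticOrderNatAt F z := by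
  have h1 : ∀ z : ℂ, analyticOrderNatAt F z ≤ analyticOrderNatAt F (starRingEnd ℂ z) := by
    intro z
    have h2 := ord_conj_le h.diff h.conj z (analyticOrderNatAt F z)
      (Nat.cast_analyticOrderNatAt (order_ne_top h z)).le
    rw [← Nat.cast_analyticOrderNatAt (order_ne_top h _)] at h2
    exact_mod_cast h2
  refine le_antisymm ?_ (h1 z)
  have := h1 (starRingEnd ℂ z)
  simpa using this

lemma order_fe (h : LF μ ρ A c β D F ε) (z : ℂ) :
    analyticOrderNatAt F (2 * c - z) = analyticOrderNatAt F z := by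
  unfold analyticOrderNatAt
  congr 1
  have h3 : AnalyticAt ℂ (fun w : ℂ => 2 * (c : ℂ) - w) z := by fun_prop
  have h4 : HasDerivAt (fun w : ℂ => 2 * (c : ℂ) - w) (-1) z := by
    simpa using (hasDerivAt_id z).const_sub (2 * (c : ℂ))
  have h5 := analyticOrderAt_comp_of_deriv_ne_zero (f := F) h3 (by rw [h4.deriv]; norm_num)
  rw [← h5]
  have h6 : (F ∘ fun w : ℂ => 2 * (c : ℂ) - w) = fun w => ε * F w := by
    funext w
    exact h.fe w
  rw [h6]
  have hε : ε ≠ 0 := by
    rcases h.eps with h7 | h7 <;> rw [h7] <;> norm_num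
  have h7 : AnalyticAt ℂ (fun _ : ℂ => ε) z := analyticAt_const
  have h8 := analyticOrderAt_mul h7 (h.diff.analyticAt z)
  rw [h7.analyticOrderAt_eq_zero.2 hε, zero_add] at h8
  exact h8

/-- the density data -/
theorem rp_of_LF (h : LF μ ρ A c β D F ε) : Rp (vF F c) (mF F) β (m / 2) where
  one_le w := by
    unfold mF
    have h1 : analyticOrderNatAt F (w : ℂ) ≠ 0 := by
      intro h0
      have h2 := Nat.cast_analyticOrderNatAt (order_ne_top h (w : ℂ))
      rw [h0] at h2
      have h3 := (h.diff.analyticAt (w : ℂ)).analyticOrderAt_eq_zero.1 h2.symm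
      exact h3 w.2
    exact_mod_cast Nat.one_le_iff_ne_zero.2 h1
  β0 := by linarith [h.β1]
  strip w := by
    unfold vF
    have := h.zero_strip w.2
    simpa using this
  rep := by
    obtain ⟨x0, hx0, hasy⟩ := LF_asy h
    refine ⟨fun x y => (logDeriv F (c + (x + y * I))).re, fun x y hx => ?_, x0, hx0, hasy⟩
    have h1 := LF_hasSum h (z0 := (x : ℂ) + y * I) (by simpa using hx)
    have e : (fun w : Zf F => mF F w * (1 / ((x : ℂ) + y * I - vF F c w)).re) =
        fun w : Zf F => (analyticOrderNatAt F (w : ℂ) : ℝ) * (1 / ((c : ℂ) + ((x : ℂ) + y * I) - w)).re := by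
      funext w
      unfold mF vF
      congr 3
      ring
    rw [e]
    exact h1

/-- reflection of the zeros in the critical line -/
noncomputable def reflZ (h : LF μ ρ A c β D F ε) : Zf F ≃ Zf F where
  toFun w := ⟨2 * c - starRingEnd ℂ (w : ℂ), by rw [h.fe, h.conj, w.2, map_zero, mul_zero]⟩
  invFun w := ⟨2 * c - starRingEnd ℂ (w : ℂ), by rw [h.fe, h.conj, w.2, map_zero, mul_zero]⟩
  left_inv w := by
    apply Subtype.ext
    show 2 * (c : ℂ) - starRingEnd ℂ (2 * c - starRingEnd ℂ (w : ℂ)) = w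
    rw [map_sub, map_mul, Complex.conj_ofReal, Complex.conj_ofNat, Complex.conj_conj]
    ring
  right_inv w := by
    apply Subtype.ext
    show 2 * (c : ℂ) - starRingEnd ℂ (2 * c - starRingEnd ℂ (w : ℂ)) = w
    rw [map_sub, map_mul, Complex.conj_ofReal, Complex.conj_ofNat, Complex.conj_conj]
    ring

/-- complex conjugation of the zeros -/
noncomputable def conjZ (h : LF μ ρ A c β D F ε) : Zf F ≃ Zf F where
  toFun w := ⟨starRingEnd ℂ (w : ℂ), by rw [h.conj, w.2, map_zero]⟩
  invFun w := ⟨starRingEnd ℂ (w : ℂ), by rw [h.conj, w.2, map_zero]⟩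
  left_inv w := by
    apply Subtype.ext
    simp
  right_inv w := by
    apply Subtype.ext
    simp

/-- the zeros of a completed L-function form a configuration -/
theorem cf_of_LF (h : LF μ ρ A c β D F ε) {b : ℝ} (hb0 : 0 < b)
    (hb : ∀ s : ℂ, F s = 0 → |s.re - c| < b) : Cf (fun w => vF F c w / (2 * b : ℝ)) (mF F) := by
  refine (rp_of_LF h).cf hb0 (fun w => ?_) ⟨reflZ h, fun w => ?_, fun w => ?_⟩
    ⟨conjZ h, fun w => ?_, fun w => ?_⟩
  · have := hb w w.2
    unfold vF
    simpa using this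
  · show (2 * (c : ℂ) - starRingEnd ℂ (w : ℂ)) - c = -starRingEnd ℂ ((w : ℂ) - c)
    rw [map_sub, Complex.conj_ofReal]
    ring
  · show ((analyticOrderNatAt F (2 * (c : ℂ) - starRingEnd ℂ (w : ℂ)) : ℕ) : ℝ) = _
    rw [order_fe h, order_conj h]
    rfl
  · show starRingEnd ℂ (w : ℂ) - c = starRingEnd ℂ ((w : ℂ) - c)
    rw [map_sub, Complex.conj_ofReal]
  · show ((analyticOrderNatAt F (starRingEnd ℂ (w : ℂ)) : ℕ) : ℝ) = _
    rw [order_conj h]
    rfl

/-- there are many zeros -/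
theorem lbc_of_LF (h : LF μ ρ A c β D F ε) {b : ℝ} (hb0 : 0 < b) :
    LBc (fun w => vF F c w / (2 * b : ℝ)) (mF F) :=
  (rp_of_LF h).lbc (by have : (0 : ℝ) < m := by exact_mod_cast h.m1
                       positivity) hb0

end Pool.Agent.Helper76.GL
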