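import Pool.Agent.Helper76.GL.Cfg
import Pool.Agent.Helper76.LW.Sig

set_option autoImplicit false

/-!
# The two-sided effective Li criterion for completed L-functions
-/

namespace Pool.Agent.Helper76.GL

open Complex Filter Topology
open Pool.Agent.Helper76
open Pool.Agent.Helper40.HW

/-- the Li coefficients -/
noncomputable def liF (F : ℂ → ℂ) (c b : ℝ) (n : ℕ) : ℝ :=
  ∑' ρ : {s : ℂ // F s = 0}, (analyticOrderNatAt F (ρ : ℂ) : ℝ) *
    (1 - (((ρ : ℂ) - c - b) / ((ρ : ℂ) - c + b)) ^ n).re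

/-- the symmetric Toeplitz matrix of second differences of the Li coefficients -/
noncomputable def liMat (F : ℂ → ℂ) (c b : ℝ) (N : ℕ) : Matrix (Fin N) (Fin N) ℝ :=
  Matrix.of fun j k =>
    liF F c b ((j : ℤ) - (k : ℤ) + 1).natAbs + liF F c b ((j : ℤ) - (k : ℤ) - 1).natAbs -
      2 * liF F c b ((j : ℤ) - (k : ℤ)).natAbs

/-- the zeros to the right of the critical line, up to height `H` -/
def offL (F : ℂ → ℂ) (c H : ℝ) : Set ℂ := {ρ : ℂ | F ρ = 0 ∧ c < ρ.re ∧ |ρ.im| < H}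

variable {m k : ℕ} {μ : Fin m → ℝ} {ρ₀ : Fin k → ℂ} {A c β b : ℝ} {D F : ℂ → ℂ} {ε : ℂ}

/-- scaled centred zeros -/
noncomputable def uF (F : ℂ → ℂ) (c b : ℝ) (w : Zf F) : ℂ := vF F c w / (2 * b : ℝ)

lemma uF_im (w : Zf F) : (uF F c b w).im = (w : ℂ).im / (2 * b) := by
  unfold uF vF
  rw [Complex.div_ofReal_im]
  simp

lemma uF_re (w : Zf F) : (uF F c b w).re = ((w : ℂ).re - c) / (2 * b) := by
  unfold uF vF
  rw [Complex.div_ofReal_re]
  simp

lemma uF_inj (hb : 0 < b) : Function.Injective (uF F c b) := by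
  intro x y hxy
  apply Subtype.ext
  unfold uF vF at hxy
  have h1 : ((2 * b : ℝ) : ℂ) ≠ 0 := by exact_mod_cast (by positivity : 2 * b ≠ 0)
  rw [div_left_inj' h1, sub_left_inj] at hxy
  exact hxy

lemma zv_uF (hb : 0 < b) (w : Zf F) :
    LW.zv (uF F c b w) = ((w : ℂ) - c - b) / ((w : ℂ) - c + b) := by
  unfold LW.zv uF vF
  have h1 : ((2 * b : ℝ) : ℂ) ≠ 0 := by exact_mod_cast (by positivity : 2 * b ≠ 0)
  have e1 : ((w : ℂ) - c) / ((2 * b : ℝ) : ℂ) - 1 / 2 = ((w : ℂ) - c - b) / ((2 * b : ℝ) : ℂ) := by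
    field_simp
    push_cast
    ring
  have e2 : ((w : ℂ) - c) / ((2 * b : ℝ) : ℂ) + 1 / 2 = ((w : ℂ) - c + b) / ((2 * b : ℝ) : ℂ) := by
    field_simp
    push_cast
    ring
  rw [e1, e2, div_div_div_cancel_right₀ h1]

lemma liF_eq (hb : 0 < b) (n : ℕ) : liF F c b n = LW.lic (uF F c b) (mF F) n := by
  unfold liF LW.lic
  refine tsum_congr fun w => ?_
  rw [zv_uF hb]
  rfl

lemma liMat_eq (hb : 0 < b) (N : ℕ) : liMat F c b N = LW.Tm (uF F c b) (mF F) N := by
  unfold liMat LW.Tm LW.tc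
  simp only [liF_eq hb]

lemma tendsto_x_div_log : Tendsto (fun N : ℕ => (N : ℝ) / Real.log N) atTop atTop := by
  have h1 : Tendsto (fun x : ℝ => x / Real.log x) atTop atTop := by
    have h0 := Real.tendsto_pow_log_div_mul_add_atTop 1 0 1 one_ne_zero
    have h2 : Tendsto (fun x : ℝ => Real.log x / x) atTop (𝓝[>] 0) := by
      rw [tendsto_nhdsWithin_iff]
      refine ⟨by simpa using h0, ?_⟩
      filter_upwards [eventually_gt_atTop 1] with x hx
      exact div_pos (Real.log_pos hx) (by linarith)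
    have h3 := h2.inv_tendsto_nhdsGT_zero
    refine h3.congr fun x => ?_
    simp
  exact h1.comp tendsto_natCast_atTop_atTop

/-- the zeros that are seen -/
theorem lowerF (h : LF μ ρ₀ A c β D F ε) (hb0 : 0 < b) (hb : ∀ s : ℂ, F s = 0 → |s.re - c| < b) :
    ∃ a : ℝ, 0 < a ∧ ∃ N0 : ℕ, ∀ N : ℕ, N0 ≤ N →
    (∀ W : Finset ℂ,
      (∀ ρ ∈ W, F ρ = 0 ∧ |ρ.im| ≤ a * N / Real.log N ∧
        c + Real.exp (-(a * N / Real.log N)) ≤ ρ.re) →
      (∀ ρ ∈ W, ∀ ρ' ∈ W, ρ ≠ ρ' → Real.exp (-(a * N / Real.log N)) ≤ ‖ρ - ρ'‖) →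
      W.card ≤ LW.negEigs (liMat F c b N)) ∧
    ((liMat F c b N).PosSemidef → ∀ ρ : ℂ, F ρ = 0 → |ρ.im| ≤ a * N / Real.log N →
      |ρ.re - c| < Real.exp (-(a * N / Real.log N))) := by
  classical
  obtain ⟨a0, ha0, N0, hsig⟩ := LW.sig_lower (cf_of_LF h hb0 hb)
  obtain ⟨a, ha⟩ : ∃ a, a = min (a0 / 2) (2 * b * a0) := ⟨_, rfl⟩
  have haa : a ≤ a0 / 2 := by rw [ha]; exact min_le_left _ _
  have hab : a ≤ 2 * b * a0 := by rw [ha]; exact min_le_right _ _
  have hapos : 0 < a := by rw [ha]; positivity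
  have hlim := (tendsto_x_div_log.const_mul_atTop (show 0 < a0 / 2 by positivity)).eventually_ge_atTop
    (Real.log (2 * b))
  obtain ⟨N1, hN1⟩ := eventually_atTop.mp hlim
  have key : ∀ N : ℕ, max (max N0 N1) 3 ≤ N → ∀ W : Finset ℂ,
      (∀ ρ ∈ W, F ρ = 0 ∧ |ρ.im| ≤ a * N / Real.log N ∧
        c + Real.exp (-(a * N / Real.log N)) ≤ ρ.re) →
      (∀ ρ ∈ W, ∀ ρ' ∈ W, ρ ≠ ρ' → Real.exp (-(a * N / Real.log N)) ≤ ‖ρ - ρ'‖) →
      W.card ≤ LW.negEigs (liMat F c b N) := by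
    intro N hN W hW hsep
    have hNN0 : N0 ≤ N := ((le_max_left _ _).trans (le_max_left _ _)).trans hN
    have hNN1 : N1 ≤ N := ((le_max_right _ _).trans (le_max_left _ _)).trans hN
    have hN3 : 3 ≤ N := (le_max_right _ _).trans hN
    have hN3' : (3 : ℝ) ≤ N := by exact_mod_cast hN3
    have hlog : 0 < Real.log N := Real.log_pos (by linarith)
    have hX : 0 ≤ (N : ℝ) / Real.log N := by positivity
    have hexp : 2 * b * Real.exp (-(a0 * N / Real.log N)) ≤ Real.exp (-(a * N / Real.log N)) := by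
      have h1 := hN1 N hNN1
      have h2 : 2 * b = Real.exp (Real.log (2 * b)) := (Real.exp_log (by positivity)).symm
      rw [h2, ← Real.exp_add, Real.exp_le_exp]
      have h3 : a * (N / Real.log N) ≤ a0 / 2 * (N / Real.log N) := by gcongr
      have h4 : a * N / Real.log N = a * (N / Real.log N) := by ring
      have h5 : a0 * N / Real.log N = a0 / 2 * (N / Real.log N) + a0 / 2 * (N / Real.log N) := by ring
      rw [h4, h5]
      linarith
    have hmem : ∀ ρ ∈ W, F ρ = 0 := fun ρ hρ => (hW ρ hρ).1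
    set W' : Finset (Zf F) := W.attach.image fun ρ => ⟨ρ.1, hmem ρ.1 ρ.2⟩ with hW'
    have hmem' : ∀ ρ ∈ W', (ρ : ℂ) ∈ W := by
      intro ρ hρ
      rw [hW', Finset.mem_image] at hρ
      obtain ⟨s, -, rfl⟩ := hρ
      exact s.2
    have hcard : W'.card = W.card := by
      rw [hW', Finset.card_image_of_injective, Finset.card_attach]
      intro x y hxy
      have := congrArg (fun x : Zf F => (x : ℂ)) hxy
      exact Subtype.ext this
    rw [← hcard, liMat_eq hb0]
    refine hsig N hNN0 W' (fun ρ hρ => ?_) fun ρ hρ ρ' hρ' hne => ?_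
    · obtain ⟨h1, h2, h3⟩ := hW _ (hmem' ρ hρ)
      have e1 : (vF F c ρ / ((2 * b : ℝ) : ℂ)).im = (ρ : ℂ).im / (2 * b) := uF_im ρ
      have e2 : (vF F c ρ / ((2 * b : ℝ) : ℂ)).re = ((ρ : ℂ).re - c) / (2 * b) := uF_re ρ
      rw [e1, e2, abs_div, abs_of_pos (show 0 < 2 * b by positivity), div_le_iff₀ (by positivity),
        le_div_iff₀ (by positivity)]
      constructor
      · refine h2.trans ?_
        calc a * N / Real.log N = a * (N / Real.log N) := by ring
          _ ≤ 2 * b * a0 * (N / Real.log N) := by gcongr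
          _ = a0 * N / Real.log N * (2 * b) := by ring
      · linarith
    · have h1 := hsep _ (hmem' ρ hρ) _ (hmem' ρ' hρ') fun he => hne (Subtype.ext he)
      have h2 : vF F c ρ / ((2 * b : ℝ) : ℂ) - vF F c ρ' / ((2 * b : ℝ) : ℂ) =
          ((ρ : ℂ) - ρ') / ((2 * b : ℝ) : ℂ) := by
        unfold vF
        ring
      rw [h2, norm_div, Complex.norm_real, Real.norm_eq_abs, abs_of_pos (show 0 < 2 * b by positivity),
        le_div_iff₀ (by positivity)]
      linarith
  refine ⟨a, hapos, max (max N0 N1) 3, fun N hN => ⟨key N hN, fun hpsd ρ hρ him => ?_⟩⟩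
  have hneg : LW.negEigs (liMat F c b N) = 0 := by
    rw [LW.negEigs_eq hpsd.1, Finset.card_eq_zero, Finset.filter_eq_empty_iff]
    intro i _
    exact not_lt.mpr (hpsd.eigenvalues_nonneg i)
  have hone : ∀ s : ℂ, F s = 0 → |s.im| ≤ a * N / Real.log N →
      s.re - c < Real.exp (-(a * N / Real.log N)) := by
    intro s hs hsim
    by_contra hcon
    push Not at hcon
    have h1 := key N hN {s} (fun ρ hρ => by
      rw [Finset.mem_singleton] at hρ
      subst hρ
      exact ⟨hs, hsim, by linarith⟩) (fun x hx y hy hxy => by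
      rw [Finset.mem_singleton] at hx hy
      exact absurd (hx.trans hy.symm) hxy)
    rw [hneg, Finset.card_singleton] at h1
    omega
  have h1 := hone _ (reflZ h ⟨ρ, hρ⟩).2 (by
    show |(2 * (c : ℂ) - (starRingEnd ℂ) ρ).im| ≤ _
    simpa using him)
  have h2 : ((reflZ h ⟨ρ, hρ⟩ : Zf F) : ℂ).re = 2 * c - ρ.re := by
    show (2 * (c : ℂ) - (starRingEnd ℂ) ρ).re = _
    simp
  rw [h2] at h1
  rw [abs_lt]
  constructor
  · linarith
  · exact hone ρ hρ him

/-- the zeros that are not seen -/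
theorem upperF (h : LF μ ρ₀ A c β D F ε) (hb0 : 0 < b) (hb : ∀ s : ℂ, F s = 0 → |s.re - c| < b) :
    ∃ K : ℝ, 0 < K ∧ ∃ N0 : ℕ, ∀ N : ℕ, N0 ≤ N →
    (offL F c (K * N * Real.log N)).Finite ∧
    LW.negEigs (liMat F c b N) ≤ (offL F c (K * N * Real.log N)).ncard ∧
    (offL F c (K * N * Real.log N) = ∅ → (liMat F c b N).PosDef) := by
  obtain ⟨K, hK, N0, hsig⟩ := LW.sig_upper (cf_of_LF h hb0 hb) (lbc_of_LF h hb0)
  refine ⟨2 * b * K, by positivity, N0, fun N hN => ?_⟩
  obtain ⟨h1, h2, h3⟩ := hsig N hN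
  have e1 : ∀ w : Zf F, (vF F c w / ((2 * b : ℝ) : ℂ)).im = (w : ℂ).im / (2 * b) := fun w => uF_im w
  have e2 : ∀ w : Zf F, (vF F c w / ((2 * b : ℝ) : ℂ)).re = ((w : ℂ).re - c) / (2 * b) := fun w => uF_re w
  have him : ∀ w : Zf F, |(w : ℂ).im / (2 * b)| < K * N * Real.log N ↔
      |(w : ℂ).im| < 2 * b * K * N * Real.log N := by
    intro w
    rw [abs_div, abs_of_pos (show 0 < 2 * b by positivity), div_lt_iff₀ (by positivity)]
    constructor <;> intro h4 <;> linarith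
  have hre : ∀ w : Zf F, 0 < ((w : ℂ).re - c) / (2 * b) ↔ c < (w : ℂ).re := by
    intro w
    rw [div_pos_iff_of_pos_right (by positivity)]
    constructor <;> intro h4 <;> linarith
  have himg : (fun w : Zf F => (w : ℂ)) ''
      {i | 0 < (vF F c i / ((2 * b : ℝ) : ℂ)).re ∧ |(vF F c i / ((2 * b : ℝ) : ℂ)).im| < K * N * Real.log N} =
      offL F c (2 * b * K * N * Real.log N) := by
    ext s
    constructor
    · rintro ⟨w, ⟨g1, g2⟩, rfl⟩
      rw [e2, hre] at g1
      rw [e1, him] at g2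
      exact ⟨w.2, g1, g2⟩
    · rintro ⟨g1, g2, g3⟩
      refine ⟨⟨s, g1⟩, ⟨?_, ?_⟩, rfl⟩
      · rw [e2, hre]
        exact g2
      · rw [e1, him]
        exact g3
  refine ⟨himg ▸ h1.image _, ?_, ?_⟩
  · rw [← himg, Set.ncard_image_of_injective _ Subtype.val_injective, liMat_eq hb0]
    exact h2
  · intro hemp
    rw [liMat_eq hb0]
    have hright : ∀ w : Zf F, |(vF F c w / ((2 * b : ℝ) : ℂ)).im| < K * N * Real.log N →
        (vF F c w / ((2 * b : ℝ) : ℂ)).re ≤ 0 := by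
      intro w hw
      by_contra hcon
      push Not at hcon
      have : (w : ℂ) ∈ offL F c (2 * b * K * N * Real.log N) := by
        rw [← himg]
        exact ⟨w, ⟨hcon, hw⟩, rfl⟩
      rw [hemp] at this
      exact this
    have hline : ∀ w : Zf F, |(vF F c w / ((2 * b : ℝ) : ℂ)).im| < K * N * Real.log N →
        (vF F c w / ((2 * b : ℝ) : ℂ)).re = 0 := by
      intro w hw
      refine le_antisymm (hright w hw) ?_
      have hr2 : ((reflZ h w : Zf F) : ℂ) = 2 * c - (starRingEnd ℂ) (w : ℂ) := rfl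
      have g1 := hright (reflZ h w) (by
        rw [e1, hr2]
        rw [e1] at hw
        simpa using hw)
      rw [e2, hr2] at g1
      rw [e2]
      have g2 : (2 * (c : ℂ) - (starRingEnd ℂ) (w : ℂ)).re = 2 * c - (w : ℂ).re := by simp
      rw [g2, div_nonpos_iff] at g1
      apply div_nonneg _ (by positivity)
      rcases g1 with g1 | g1
      · linarith [g1.2]
      · linarith [g1.1]
    have h4 := h3 hline
    refine Matrix.PosDef.of_dotProduct_mulVec_pos (LW.Tm_isHermitian N) fun x hx => ?_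
    have h5 := h4 (fun j => (x j : ℂ)) (fun h0 => hx (by
      funext j
      have := congrFun h0 j
      simpa using this))
    refine lt_of_lt_of_eq h5 ?_
    unfold LW.hform dotProduct Matrix.mulVec dotProduct
    refine Finset.sum_congr rfl fun j _ => ?_
    rw [Finset.mul_sum]
    refine Finset.sum_congr rfl fun k _ => ?_
    rw [Complex.conj_ofReal, ← Complex.ofReal_mul, Complex.ofReal_re, Pi.star_apply, star_trivial]
    rw [show (fun w => vF F c w / ((2 * b : ℝ) : ℂ)) = uF F c b from rfl]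
    ring

/-- infinitely many zeros -/
lemma infiniteF (h : LF μ ρ₀ A c β D F ε) : Infinite (Zf F) := by
  by_contra hinf
  have : Finite (Zf F) := not_infinite_iff_finite.mp hinf
  obtain ⟨B, hB⟩ := (Set.finite_range fun w : Zf F => (vF F c w / ((2 * 1 : ℝ) : ℂ)).im).bddAbove
  obtain ⟨c1, C0, T0, hc, hC0, hT0, hl⟩ := lbc_of_LF h one_pos
  have hlim : Tendsto (fun x : ℝ => x / Real.log x) atTop atTop := by
    have h0 := Real.tendsto_pow_log_div_mul_add_atTop 1 0 1 one_ne_zero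
    have h2 : Tendsto (fun x : ℝ => Real.log x / x) atTop (𝓝[>] 0) := by
      rw [tendsto_nhdsWithin_iff]
      refine ⟨by simpa using h0, ?_⟩
      filter_upwards [eventually_gt_atTop 1] with x hx
      exact div_pos (Real.log_pos hx) (by linarith)
    have h3 := h2.inv_tendsto_nhdsGT_zero
    refine h3.congr fun x => ?_
    simp
  obtain ⟨T, hT1, hT2⟩ := ((hlim.eventually_ge_atTop C0).and
    (eventually_ge_atTop (max T0 (B + 1)))).exists
  have hTT0 : T0 ≤ T := (le_max_left _ _).trans hT2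
  have hTB : B + 1 ≤ T := (le_max_right _ _).trans hT2
  have hlog : 0 < Real.log T := Real.log_pos (by linarith)
  obtain ⟨S, hS1, hS2⟩ := hl T hTT0 T ((le_div_iff₀ hlog).mp hT1) le_rfl
  have hpos : 0 < c1 * T * Real.log T := by
    have : 0 < T := by linarith
    positivity
  have hne : S.Nonempty := by
    by_contra he
    rw [Finset.not_nonempty_iff_eq_empty] at he
    rw [he, Finset.sum_empty] at hS2
    linarith
  obtain ⟨w, hw⟩ := hne
  have h1 := (hS1 w hw).1
  have h2 : (vF F c w / ((2 * 1 : ℝ) : ℂ)).im ≤ B := hB (Set.mem_range_self w)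
  linarith

/-- the qualitative criterion -/
theorem critF (h : LF μ ρ₀ A c β D F ε) (hb0 : 0 < b) (hb : ∀ s : ℂ, F s = 0 → |s.re - c| < b) :
    ((∀ s : ℂ, F s = 0 → s.re = c) ↔ ∀ N : ℕ, (liMat F c b N).PosSemidef) ∧
    ((∀ s : ℂ, F s = 0 → s.re = c) → ∀ N : ℕ, (liMat F c b N).PosDef) := by
  have hC := cf_of_LF h hb0 hb
  have hline : (∀ s : ℂ, F s = 0 → s.re = c) → ∀ w : Zf F, (vF F c w / ((2 * b : ℝ) : ℂ)).re = 0 := by
    intro h0 w
    have e2 : (vF F c w / ((2 * b : ℝ) : ℂ)).re = ((w : ℂ).re - c) / (2 * b) := uF_re w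
    rw [e2, h0 w w.2, sub_self, zero_div]
  refine ⟨⟨fun h0 N => ?_, fun h0 s hs => ?_⟩, fun h0 N => ?_⟩
  · rw [liMat_eq hb0]
    exact LW.psd_of_line hC (hline h0) N
  · have h2 := LW.line_of_psd hC (fun N => by
      have := h0 N
      rw [liMat_eq hb0] at this
      exact this) ⟨s, hs⟩
    have e2 : (vF F c ⟨s, hs⟩ / ((2 * b : ℝ) : ℂ)).re = (s.re - c) / (2 * b) := uF_re ⟨s, hs⟩
    have h3 : (s.re - c) / (2 * b) = 0 := by
      rw [← e2]
      exact h2
    rw [div_eq_zero_iff] at h3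
    rcases h3 with h3 | h3
    · linarith
    · linarith
  · rw [liMat_eq hb0]
    exact LW.pd_of_line hC (hline h0) (infiniteF h) (uF_inj hb0) N

/-- the series converge -/
theorem summableF (h : LF μ ρ₀ A c β D F ε) (hb0 : 0 < b) (hb : ∀ s : ℂ, F s = 0 → |s.re - c| < b) (n : ℕ) :
    Summable fun ρ : {s : ℂ // F s = 0} => (analyticOrderNatAt F (ρ : ℂ) : ℝ) *
      (1 - (((ρ : ℂ) - c - b) / ((ρ : ℂ) - c + b)) ^ n).re := by
  refine ((cf_of_LF h hb0 hb).summable_FF (n : ℤ)).congr fun w => ?_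
  have h1 : LW.zv (vF F c w / ((2 * b : ℝ) : ℂ)) = ((w : ℂ) - c - b) / ((w : ℂ) - c + b) := zv_uF hb0 w
  unfold LW.FF
  rw [h1, zpow_natCast]
  rfl

end Pool.Agent.Helper76.GL
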