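import Pool.Agent.Helper40.HW.Sd
import Pool.Graph.R_seed8.H382P.LocExp

set_option autoImplicit false

/-!
# The logarithmic derivative of an even entire function of order less than two
-/

namespace Pool.Agent.Helper76.GL

open Complex Filter Topology Metric
open H370 H370.Loc
open Pool.Agent.Helper40.HW (Ev FF FF_sq FF_diff FF_eq)
open Pool.Agent.Helper75.Jen (cpow_half_sq)

lemma Pf_mem_zero {s : Multiset ℂ} {z : ℂ} (h : Pf s z = 0) : z ∈ s := by
  by_contra hcon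
  exact Pf_ne_zero (s := s) (z := z) (fun ρ hρ he => hcon (he ▸ hρ)) h

lemma Pf_add (s t : Multiset ℂ) (z : ℂ) : Pf (s + t) z = Pf s z * Pf t z := by
  unfold Pf
  rw [Multiset.map_add, Multiset.prod_add]

lemma logDeriv_Pf {s : Multiset ℂ} {z : ℂ} (h : ∀ ρ ∈ s, z ≠ ρ) :
    logDeriv (Pf s) z = (s.map fun ρ => 1 / (z - ρ)).sum := by
  induction s using Multiset.induction_on with
  | empty =>
    have : Pf 0 = fun _ => (1 : ℂ) := funext Pf_zero
    rw [this]
    simp [logDeriv]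
  | cons ρ s ih =>
    have : Pf (ρ ::ₘ s) = fun z => (z - ρ) * Pf s z := funext (Pf_cons ρ s)
    have h1 : z - ρ ≠ 0 := sub_ne_zero.2 (h ρ (Multiset.mem_cons_self ρ s))
    have h2 : Pf s z ≠ 0 := Pf_ne_zero fun ρ' h' => h ρ' (Multiset.mem_cons_of_mem h')
    rw [this, logDeriv_mul (f := fun z : ℂ => z - ρ) (g := Pf s) z h1 h2 (by fun_prop) (Pf_diff s z),
      ih fun ρ' h' => h ρ' (Multiset.mem_cons_of_mem h'), Multiset.map_cons, Multiset.sum_cons]
    congr 1
    rw [logDeriv_apply]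
    simp

/-- zeros of an entire function in a disc, and the logarithmic derivative of the zero free part -/
lemma local_exp {Φ : ℂ → ℂ} (hΦ : Differentiable ℂ Φ) {c0 : ℂ} (hc : Φ c0 ≠ 0) {r M : ℝ} (hr : 1 ≤ r)
    (hM : 1 ≤ M) (hb : ∀ z ∈ closedBall c0 (4 * r), ‖Φ z‖ ≤ M) :
    ∃ (s : Multiset ℂ) (g : ℂ → ℂ), (∀ ρ ∈ s, ρ ∈ closedBall c0 r ∧ Φ ρ = 0) ∧
      AnalyticOnNhd ℂ g (closedBall c0 (4 * r)) ∧ (∀ z, Φ z = Pf s z * g z) ∧
      (∀ z ∈ closedBall c0 r, g z ≠ 0) ∧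
      ∀ z ∈ closedBall c0 (r / 4), ‖logDeriv g z‖ ≤
        8 * (Real.log M + |Real.log ‖Φ c0‖| + 1) / r := by
  have hr0 : 0 < r := by linarith
  obtain ⟨s, g, hs, hg, hfg, hg0, -⟩ := extract (f := Φ) (c := c0) (r := r) (R := 4 * r) (M := M)
    hr0 (by linarith) hM (fun z _ => hΦ.analyticAt z) hc hb
  refine ⟨s, g, hs, hg, hfg, hg0, ?_⟩
  have h1mem : c0 ∈ closedBall c0 r := mem_closedBall_self hr0.le
  have hg1 : g c0 ≠ 0 := hg0 c0 h1mem
  have hgb : ∀ w ∈ closedBall c0 r, ‖g w‖ ≤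
      Real.exp (Real.log M + |Real.log ‖Φ c0‖|) * ‖g c0‖ := by
    set n := Multiset.card s with hn
    have hF1n : 0 < ‖Φ c0‖ := norm_pos_iff.2 hc
    have hgc : ‖Φ c0‖ / r ^ n ≤ ‖g c0‖ := by
      rw [div_le_iff₀ (by positivity)]
      have h2 : ‖Pf s c0‖ ≤ r ^ n := Pf_norm_le fun ρ hρ => by
        have h3 := (hs ρ hρ).1
        rw [mem_closedBall, dist_eq_norm, norm_sub_rev] at h3
        exact h3
      calc ‖Φ c0‖ = ‖g c0‖ * ‖Pf s c0‖ := by rw [hfg c0, norm_mul, mul_comm]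
        _ ≤ ‖g c0‖ * r ^ n := mul_le_mul_of_nonneg_left h2 (norm_nonneg _)
    have hsph : ∀ w ∈ sphere c0 (3 * r), ‖g w‖ ≤ M / r ^ n := by
      intro w hw
      have h2 : r ^ n ≤ ‖Pf s w‖ := Pf_norm_ge hr0.le fun ρ hρ => by
        have h2 := (hs ρ hρ).1
        rw [mem_closedBall, dist_eq_norm] at h2
        rw [mem_sphere, dist_eq_norm] at hw
        have h3 : ‖w - c0‖ ≤ ‖w - ρ‖ + ‖ρ - c0‖ := by
          calc ‖w - c0‖ = ‖(w - ρ) + (ρ - c0)‖ := by congr 1; ring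
            _ ≤ _ := norm_add_le _ _
        linarith
      rw [le_div_iff₀ (by positivity)]
      calc ‖g w‖ * r ^ n ≤ ‖g w‖ * ‖Pf s w‖ := mul_le_mul_of_nonneg_left h2 (norm_nonneg _)
        _ = ‖Φ w‖ := by rw [hfg w, norm_mul, mul_comm]
        _ ≤ M := hb w (by
            rw [mem_closedBall]; rw [mem_sphere] at hw; linarith)
    have hball3 : ∀ w ∈ closedBall c0 (3 * r), ‖g w‖ ≤ M / r ^ n := by
      intro w hw
      refine Complex.norm_le_of_forall_mem_frontier_norm_le (U := ball c0 (3 * r))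
        isBounded_ball ?_ ?_ ?_
      · apply DifferentiableOn.diffContOnCl
        rw [closure_ball _ (by linarith)]
        intro x hx
        exact (hg x (closedBall_subset_closedBall (by linarith) hx)).differentiableAt.differentiableWithinAt
      · intro x hx
        rw [frontier_ball _ (by linarith)] at hx
        exact hsph x hx
      · rwa [closure_ball _ (by linarith)]
    intro w hw
    refine (hball3 w (closedBall_subset_closedBall (by linarith) hw)).trans ?_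
    have h5 : M ≤ Real.exp (Real.log M + |Real.log ‖Φ c0‖|) * ‖Φ c0‖ := by
      rw [Real.exp_add, Real.exp_log (by linarith), mul_assoc]
      have h6 : 1 ≤ Real.exp |Real.log ‖Φ c0‖| * ‖Φ c0‖ := by
        have h7 : ‖Φ c0‖ = Real.exp (Real.log ‖Φ c0‖) := (Real.exp_log hF1n).symm
        have h8 : Real.exp |Real.log ‖Φ c0‖| * ‖Φ c0‖ =
            Real.exp (|Real.log ‖Φ c0‖| + Real.log ‖Φ c0‖) := by
          rw [Real.exp_add, ← h7]
        rw [h8]
        exact Real.one_le_exp (by linarith [neg_abs_le (Real.log ‖Φ c0‖)])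
      nlinarith
    calc M / r ^ n ≤ Real.exp (Real.log M + |Real.log ‖Φ c0‖|) * ‖Φ c0‖ / r ^ n := by gcongr
      _ = Real.exp (Real.log M + |Real.log ‖Φ c0‖|) * (‖Φ c0‖ / r ^ n) := by ring
      _ ≤ _ := by gcongr
  have hB0 : 0 ≤ Real.log M + |Real.log ‖Φ c0‖| := by
    have := Real.log_nonneg hM
    positivity
  intro z hz
  have := logDeriv_zero_free (g := g) (c := c0) (r := r) (r1 := r / 2) (r2 := r / 4)
    (B := Real.log M + |Real.log ‖Φ c0‖|) (by linarith) (by linarith) (by linarith) hB0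
    (hg.mono (closedBall_subset_closedBall (by linarith))) hg0 hgb hz
  refine this.trans (le_of_eq ?_)
  field_simp
  ring

/-- the zeros of a function -/
abbrev Zf (f : ℂ → ℂ) : Type := {z : ℂ // f z = 0}

lemma pf_sq (s : Multiset ℂ) (z : ℂ) :
    Pf (s.map (fun w => w ^ (1 / 2 : ℂ)) + s.map (fun w => -w ^ (1 / 2 : ℂ))) z = Pf s (z ^ 2) := by
  rw [Pf_add]
  induction s using Multiset.induction_on with
  | empty => simp [Pf_zero]
  | cons w s ih =>
    rw [Multiset.map_cons, Multiset.map_cons, Pf_cons, Pf_cons, Pf_cons, ← ih]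
    have h := cpow_half_sq w
    linear_combination (-(Pf (s.map (fun w => w ^ (1 / 2 : ℂ))) z *
      Pf (s.map (fun w => -w ^ (1 / 2 : ℂ))) z)) * h

lemma eps_tendsto' (C D K : ℝ) (hK : 0 ≤ K) :
    Tendsto (fun N : ℕ => 8 * (C * (K * ((N : ℝ) + 1)) ^ (3 / 5 : ℝ) + D + 1) /
    ((N : ℝ) + 1)) atTop (𝓝 0) := by
  have h1 : Tendsto (fun N : ℕ => ((N : ℝ) + 1)) atTop atTop :=
    tendsto_atTop_add_const_right _ _ tendsto_natCast_atTop_atTop
  have h2 : Tendsto (fun N : ℕ => ((N : ℝ) + 1) ^ (-(2 / 5 : ℝ))) atTop (𝓝 0) :=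
    (tendsto_rpow_neg_atTop (by norm_num)).comp h1
  have h3 : Tendsto (fun N : ℕ => ((N : ℝ) + 1)⁻¹) atTop (𝓝 0) := tendsto_inv_atTop_zero.comp h1
  have h4 := (h2.const_mul (8 * C * K ^ (3 / 5 : ℝ))).add (h3.const_mul (8 * (D + 1)))
  rw [mul_zero, mul_zero, add_zero] at h4
  refine h4.congr fun N => ?_
  have hN : (0 : ℝ) < (N : ℝ) + 1 := by positivity
  rw [Real.mul_rpow hK hN.le]
  have e : ((N : ℝ) + 1) ^ (-(2 / 5 : ℝ)) = ((N : ℝ) + 1) ^ (3 / 5 : ℝ) / ((N : ℝ) + 1) := by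
    rw [show (-(2 / 5 : ℝ)) = 3 / 5 - 1 by norm_num, Real.rpow_sub_one hN.ne']
  rw [e]
  field_simp
  ring

/-- **The logarithmic derivative as a sum over the zeros.** -/
theorem hasSum_re {f : ℂ → ℂ} (hf : Ev f) {C : ℝ} (hC : 0 ≤ C)
    (hgr : ∀ w, ‖f w‖ ≤ Real.exp (C * (1 + ‖w‖ ^ 2) ^ (3 / 5 : ℝ))) {B : ℝ}
    (hz : ∀ w, f w = 0 → |w.re| ≤ B) {z0 : ℂ} (hz0 : B < z0.re) :
    HasSum (fun u : Zf f => (analyticOrderNatAt f (u : ℂ) : ℝ) * (1 / (z0 - u)).re) (logDeriv f z0).re := by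
  classical
  have hΦ := FF_diff hf
  set c0 : ℂ := z0 ^ 2 with hc0
  have hfz0 : f z0 ≠ 0 := fun h => by
    have := hz z0 h
    have := le_abs_self z0.re
    linarith
  have hc : FF f c0 ≠ 0 := by rw [hc0, FF_sq hf]; exact hfz0
  have hgr' : ∀ z, ‖FF f z‖ ≤ Real.exp (C * (1 + ‖z‖) ^ (3 / 5 : ℝ)) := by
    intro z
    have hz : ‖z‖ = ‖z ^ (1 / 2 : ℂ)‖ ^ 2 := by rw [← norm_pow, cpow_half_sq]
    rw [hz]
    exact hgr _
  -- the discs
  have hstep : ∀ N : ℕ, ∃ (s : Multiset ℂ) (g : ℂ → ℂ),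
      (∀ ρ ∈ s, ρ ∈ closedBall c0 ((N : ℝ) + 1) ∧ FF f ρ = 0) ∧
      AnalyticOnNhd ℂ g (closedBall c0 (4 * ((N : ℝ) + 1))) ∧ (∀ z, FF f z = Pf s z * g z) ∧
      (∀ z ∈ closedBall c0 ((N : ℝ) + 1), g z ≠ 0) ∧
      ‖logDeriv g c0‖ ≤ 8 * (C * ((4 + 1 + ‖c0‖) * ((N : ℝ) + 1)) ^ (3 / 5 : ℝ) +
        |Real.log ‖FF f c0‖| + 1) / ((N : ℝ) + 1) := by
    intro N
    have hN : (0 : ℝ) ≤ N := Nat.cast_nonneg N
    have hexp : 0 ≤ C * ((4 + 1 + ‖c0‖) * ((N : ℝ) + 1)) ^ (3 / 5 : ℝ) := by positivity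
    obtain ⟨s, g, h1, h2, h3, h4, h5⟩ := local_exp hΦ hc (r := (N : ℝ) + 1)
      (M := Real.exp (C * ((4 + 1 + ‖c0‖) * ((N : ℝ) + 1)) ^ (3 / 5 : ℝ))) (by linarith)
      (Real.one_le_exp hexp) (fun z hz => by
        refine (hgr' z).trans (Real.exp_le_exp.2 ?_)
        refine mul_le_mul_of_nonneg_left ?_ hC
        refine Real.rpow_le_rpow (by positivity) ?_ (by norm_num)
        rw [mem_closedBall, dist_eq_norm] at hz
        have h1 : ‖z‖ ≤ ‖z - c0‖ + ‖c0‖ := by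
          calc ‖z‖ = ‖(z - c0) + c0‖ := by congr 1; ring
            _ ≤ ‖z - c0‖ + ‖c0‖ := norm_add_le _ _
        have h2 := norm_nonneg c0
        nlinarith [mul_nonneg h2 hN])
    rw [Real.log_exp] at h5
    exact ⟨s, g, h1, h2, h3, h4, h5 c0 (mem_closedBall_self (by linarith))⟩
  choose s g hs hg hfg hg0 hbd using hstep
  set t : ℕ → Multiset ℂ := fun N =>
    (s N).map (fun w => w ^ (1 / 2 : ℂ)) + (s N).map (fun w => -w ^ (1 / 2 : ℂ)) with ht
  have hft : ∀ N z, f z = Pf (t N) z * g N (z ^ 2) := by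
    intro N z
    rw [ht]
    show f z = Pf (_ + _) z * _
    rw [pf_sq, ← hfg N, FF_sq hf]
  have htz : ∀ N, ∀ u ∈ t N, f u = 0 := by
    intro N u hu
    rw [hft N u]
    have : Pf (t N) u = 0 := by
      unfold Pf
      rw [Multiset.prod_eq_zero_iff, Multiset.mem_map]
      exact ⟨u, hu, sub_self u⟩
    rw [this, zero_mul]
  have htb : ∀ N, ∀ u ∈ t N, u ^ 2 ∈ closedBall c0 ((N : ℝ) + 1) := by
    intro N u hu
    rw [ht, Multiset.mem_add, Multiset.mem_map, Multiset.mem_map] at hu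
    rcases hu with ⟨w, hw, rfl⟩ | ⟨w, hw, rfl⟩
    · rw [cpow_half_sq]
      exact (hs N w hw).1
    · rw [neg_sq, cpow_half_sq]
      exact (hs N w hw).1
  have hgan : ∀ (N : ℕ) (u : ℂ), u ^ 2 ∈ closedBall c0 ((N : ℝ) + 1) → AnalyticAt ℂ (fun z => g N (z ^ 2)) u := by
    intro N u hu
    have h1 : AnalyticAt ℂ (g N) (u ^ 2) := hg N _ (closedBall_subset_closedBall (by
      have : (0 : ℝ) ≤ N := Nat.cast_nonneg N
      linarith) hu)
    exact h1.comp (f := fun z : ℂ => z ^ 2) (by fun_prop)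
  have hmult : ∀ (N : ℕ) (u : ℂ), u ^ 2 ∈ closedBall c0 ((N : ℝ) + 1) → analyticOrderNatAt f u = (t N).count u := by
    intro N u hu
    exact SP.LocAux.count_eq_mult (f := f) (g := fun z => g N (z ^ 2)) (hf.diff.analyticAt u) (hgan N u hu)
      (hg0 N _ hu) (hft N)
  set Bn : ℕ → Finset (Zf f) := fun N => (t N).toFinset.subtype fun z => f z = 0 with hBn
  have hBmem : ∀ (u : Zf f), ∀ᶠ N : ℕ in atTop, u ∈ Bn N := by
    intro u
    have h1 : Tendsto (fun N : ℕ => ((N : ℝ) + 1)) atTop atTop :=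
      tendsto_atTop_add_const_right _ _ tendsto_natCast_atTop_atTop
    filter_upwards [h1.eventually_ge_atTop (dist ((u : ℂ) ^ 2) c0)] with N hN
    have hu : (u : ℂ) ^ 2 ∈ closedBall c0 ((N : ℝ) + 1) := mem_closedBall.2 hN
    rw [hBn, Finset.mem_subtype, Multiset.mem_toFinset]
    apply Pf_mem_zero
    have h2 := hft N u
    rw [u.2] at h2
    exact (mul_eq_zero.1 h2.symm).resolve_right (hg0 N _ hu)
  have hBtend : Tendsto Bn atTop atTop := by
    rw [Filter.tendsto_atTop]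
    intro S
    have h1 : ∀ᶠ N : ℕ in atTop, ∀ u ∈ S, u ∈ Bn N := by
      rw [Filter.eventually_all_finset]
      exact fun u _ => hBmem u
    filter_upwards [h1] with N hN
    exact hN
  -- the sum over the disc
  have hsum : ∀ N : ℕ, ∑ u ∈ Bn N, (analyticOrderNatAt f (u : ℂ) : ℝ) * (1 / (z0 - u)).re =
      (logDeriv f z0 - 2 * z0 * logDeriv (g N) c0).re := by
    intro N
    have h0 : z0 ^ 2 ∈ closedBall c0 ((N : ℝ) + 1) := by
      rw [← hc0]
      exact mem_closedBall_self (by positivity)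
    have hne : ∀ ρ ∈ t N, z0 ≠ ρ := by
      intro ρ hρ he
      exact hfz0 (he ▸ htz N ρ hρ)
    have e1 : logDeriv f z0 = logDeriv (Pf (t N)) z0 + logDeriv (fun z => g N (z ^ 2)) z0 := by
      have e : f = fun z => Pf (t N) z * g N (z ^ 2) := funext (hft N)
      conv_lhs => rw [e]
      exact logDeriv_mul (f := Pf (t N)) (g := fun z => g N (z ^ 2)) z0 (Pf_ne_zero hne) (hg0 N _ h0)
        (Pf_diff _ z0) (hgan N z0 h0).differentiableAt
    have e2 : logDeriv (fun z => g N (z ^ 2)) z0 = 2 * z0 * logDeriv (g N) c0 := by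
      have h1 : DifferentiableAt ℂ (g N) (z0 ^ 2) := (hg N _ (closedBall_subset_closedBall (by
        have : (0 : ℝ) ≤ N := Nat.cast_nonneg N
        linarith) h0)).differentiableAt
      have h2 : HasDerivAt (fun z : ℂ => z ^ 2) (2 * z0) z0 := by
        simpa using hasDerivAt_pow 2 z0
      have h3 : HasDerivAt (fun z => g N (z ^ 2)) (deriv (g N) (z0 ^ 2) * (2 * z0)) z0 :=
        HasDerivAt.comp (h := fun z : ℂ => z ^ 2) z0 h1.hasDerivAt h2
      rw [logDeriv_apply, h3.deriv, logDeriv_apply, hc0]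
      ring
    rw [e1, e2, add_sub_cancel_right, logDeriv_Pf hne, Finset.sum_multiset_map_count, Complex.re_sum]
    have e3 : ∑ u ∈ Bn N, (analyticOrderNatAt f (u : ℂ) : ℝ) * (1 / (z0 - u)).re =
        ∑ z ∈ (t N).toFinset.filter (fun z => f z = 0), (analyticOrderNatAt f z : ℝ) * (1 / (z0 - z)).re :=
      Finset.sum_subtype_eq_sum_filter (s := (t N).toFinset) (p := fun z => f z = 0)
        (fun z => (analyticOrderNatAt f z : ℝ) * (1 / (z0 - z)).re)
    rw [e3, Finset.filter_true_of_mem (fun z hz => htz N z (Multiset.mem_toFinset.1 hz))]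
    refine Finset.sum_congr rfl fun u hu => ?_
    rw [hmult N u (htb N u (Multiset.mem_toFinset.1 hu)), nsmul_eq_mul, ← Complex.ofReal_natCast,
      Complex.re_ofReal_mul]
  -- the limit
  have hlim : Tendsto (fun N : ℕ => (logDeriv f z0 - 2 * z0 * logDeriv (g N) c0).re) atTop
      (𝓝 (logDeriv f z0).re) := by
    have h1 : Tendsto (fun N : ℕ => 2 * z0 * logDeriv (g N) c0) atTop (𝓝 0) := by
      rw [tendsto_zero_iff_norm_tendsto_zero]
      have h2 := (eps_tendsto' C (|Real.log ‖FF f c0‖|) (4 + 1 + ‖c0‖) (by positivity)).const_mul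
        (2 * ‖z0‖)
      rw [mul_zero] at h2
      refine squeeze_zero (fun N => norm_nonneg _) (fun N => ?_) h2
      rw [norm_mul, norm_mul, Complex.norm_ofNat]
      exact mul_le_mul_of_nonneg_left (hbd N) (by positivity)
    have h3 := (tendsto_const_nhds (x := logDeriv f z0)).sub h1
    rw [sub_zero] at h3
    exact (Complex.continuous_re.tendsto _).comp h3
  have hnn : ∀ u : Zf f, 0 ≤ (analyticOrderNatAt f (u : ℂ) : ℝ) * (1 / (z0 - u)).re := by
    intro u
    refine mul_nonneg (Nat.cast_nonneg _) ?_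
    rw [one_div, Complex.inv_re]
    refine div_nonneg ?_ (Complex.normSq_nonneg _)
    have := hz u u.2
    have := le_abs_self (u : ℂ).re
    rw [Complex.sub_re]
    linarith
  have hsummable : Summable fun u : Zf f => (analyticOrderNatAt f (u : ℂ) : ℝ) * (1 / (z0 - u)).re := by
    refine summable_of_sum_le (c := (logDeriv f z0).re + 1) hnn fun S => ?_
    obtain ⟨N, hN1, hN2⟩ := ((Filter.tendsto_atTop.1 hBtend S).and
      (hlim.eventually_le_const (show (logDeriv f z0).re < (logDeriv f z0).re + 1 by linarith))).exists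
    refine (Finset.sum_le_sum_of_subset_of_nonneg hN1 fun u _ _ => hnn u).trans ?_
    rw [hsum N]
    exact hN2
  have h1 := hsummable.hasSum.comp hBtend
  have h2 : Tendsto (fun N => (logDeriv f z0 - 2 * z0 * logDeriv (g N) c0).re) atTop
      (𝓝 (∑' u : Zf f, (analyticOrderNatAt f (u : ℂ) : ℝ) * (1 / (z0 - u)).re)) := by
    refine h1.congr fun N => ?_
    exact hsum N
  have h3 := tendsto_nhds_unique hlim h2
  rw [h3]
  exact hsummable.hasSum

end Pool.Agent.Helper76.GL
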