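import Pool.Agent.Helper76.GL.Rep
import Pool.Agent.Helper40.HW.Fin

set_option autoImplicit false

/-!
# The logarithmic derivative of a completed L-function to the right of its zeros
-/

namespace Pool.Agent.Helper76.GL

open Complex Filter Topology Metric
open Pool.Agent.Helper40.HW

variable {m k : ℕ} {μ : Fin m → ℝ} {ρ : Fin k → ℂ} {A c β : ℝ} {D F : ℂ → ℂ} {ε : ℂ}

/-- the square of the centred function -/
noncomputable def sqf (F : ℂ → ℂ) (c : ℝ) (w : ℂ) : ℂ := F (c + w) ^ 2

lemma sqf_ev (h : LF μ ρ A c β D F ε) : Ev (sqf F c) where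
  diff := (h.diff.comp (by fun_prop : Differentiable ℂ fun w : ℂ => (c : ℂ) + w)).pow 2
  even w := by
    unfold sqf
    have h1 : F (c + -w) = ε * F (c + w) := by
      rw [← h.fe]
      congr 1
      ring
    rw [h1, mul_pow]
    rcases h.eps with h2 | h2 <;> rw [h2] <;> ring
  conj w := by
    unfold sqf
    rw [map_pow, ← h.conj]
    congr 2
    rw [map_add, Complex.conj_ofReal]

lemma sqf_growth (h : LF μ ρ A c β D F ε) : ∃ C : ℝ, 0 ≤ C ∧ ∀ w,
    ‖sqf F c w‖ ≤ Real.exp (C * (1 + ‖w‖ ^ 2) ^ (3 / 5 : ℝ)) := by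
  obtain ⟨C, hC, hb⟩ := h.growth
  refine ⟨2 * (C * (2 * (1 + |c|) ^ 2) ^ (3 / 5 : ℝ)), by positivity, fun w => ?_⟩
  unfold sqf
  rw [norm_pow]
  have h1 := hb (c + w) (Set.mem_univ _)
  have h2 : ‖F (c + w)‖ ^ 2 ≤ Real.exp (2 * (C * (1 + ‖(c : ℂ) + w‖) ^ (6 / 5 : ℝ))) := by
    have : Real.exp (2 * (C * (1 + ‖(c : ℂ) + w‖) ^ (6 / 5 : ℝ))) =
        Real.exp (C * (1 + ‖(c : ℂ) + w‖) ^ (6 / 5 : ℝ)) ^ 2 := by
      rw [← Real.exp_nat_mul]
      push_cast
      rfl
    rw [this]
    gcongr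
  refine h2.trans (Real.exp_le_exp.2 ?_)
  rw [mul_assoc, mul_assoc]
  refine mul_le_mul_of_nonneg_left (mul_le_mul_of_nonneg_left ?_ hC) (by norm_num)
  rw [← Real.mul_rpow (by positivity) (by positivity)]
  have h3 : (1 + ‖(c : ℂ) + w‖) ^ (6 / 5 : ℝ) = ((1 + ‖(c : ℂ) + w‖) ^ 2) ^ (3 / 5 : ℝ) := by
    rw [← Real.rpow_natCast, ← Real.rpow_mul (by positivity)]
    norm_num
  rw [h3]
  refine Real.rpow_le_rpow (by positivity) ?_ (by norm_num)
  have h4 : ‖(c : ℂ) + w‖ ≤ |c| + ‖w‖ := by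
    refine (norm_add_le _ _).trans ?_
    rw [Complex.norm_real, Real.norm_eq_abs]
  have h5 : 0 ≤ |c| := abs_nonneg c
  have h6 := norm_nonneg w
  have h7 : 1 + ‖(c : ℂ) + w‖ ≤ (1 + |c|) * (1 + ‖w‖) := by nlinarith [mul_nonneg h5 h6]
  calc (1 + ‖(c : ℂ) + w‖) ^ 2 ≤ ((1 + |c|) * (1 + ‖w‖)) ^ 2 := by gcongr
    _ = (1 + |c|) ^ 2 * (1 + ‖w‖) ^ 2 := by ring
    _ ≤ (1 + |c|) ^ 2 * (2 * (1 + ‖w‖ ^ 2)) := by
        gcongr
        nlinarith [sq_nonneg (‖w‖ - 1)]
    _ = 2 * (1 + |c|) ^ 2 * (1 + ‖w‖ ^ 2) := by ring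

lemma sqf_order (h : LF μ ρ A c β D F ε) (w : ℂ) :
    analyticOrderNatAt (sqf F c) w = 2 * analyticOrderNatAt F (c + w) := by
  have h1 : AnalyticAt ℂ (fun w : ℂ => F (c + w)) w :=
    (h.diff.comp (by fun_prop : Differentiable ℂ fun w : ℂ => (c : ℂ) + w)).analyticAt w
  have h2 : analyticOrderNatAt (sqf F c) w = 2 * analyticOrderNatAt (fun w : ℂ => F (c + w)) w := by
    have := analyticOrderNatAt_pow h1 2
    exact this
  rw [h2]
  congr 1
  unfold analyticOrderNatAt
  congr 1
  have h3 : AnalyticAt ℂ (fun w : ℂ => (c : ℂ) + w) w := by fun_prop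
  have h4 : HasDerivAt (fun w : ℂ => (c : ℂ) + w) 1 w := (hasDerivAt_id w).const_add _
  have h5 := analyticOrderAt_comp_of_deriv_ne_zero (f := F) h3 (by rw [h4.deriv]; exact one_ne_zero)
  exact h5

/-- the centred zeros and the zeros -/
def shiftE (F : ℂ → ℂ) (c : ℝ) : Zf (sqf F c) ≃ Zf F where
  toFun w := ⟨c + w, by
    have := w.2
    unfold sqf at this
    exact pow_eq_zero_iff (two_ne_zero) |>.1 this⟩
  invFun s := ⟨s - c, by
    unfold sqf
    have : (c : ℂ) + (s - c) = s := by ring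
    rw [this, s.2]
    norm_num⟩
  left_inv w := by
    apply Subtype.ext
    simp
  right_inv s := by
    apply Subtype.ext
    simp

/-- **The logarithmic derivative as a sum over the zeros.** -/
theorem LF_hasSum (h : LF μ ρ A c β D F ε) {z0 : ℂ} (hz0 : β < z0.re) :
    HasSum (fun w : Zf F => (analyticOrderNatAt F (w : ℂ) : ℝ) * (1 / (c + z0 - w)).re)
      (logDeriv F (c + z0)).re := by
  obtain ⟨C, hC, hgr⟩ := sqf_growth h
  have h1 := hasSum_re (sqf_ev h) hC hgr (B := β) (fun w hw => by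
    have h2 : F (c + w) = 0 := by
      unfold sqf at hw
      exact pow_eq_zero_iff (two_ne_zero) |>.1 hw
    have h3 := h.zero_strip h2
    simpa using h3) hz0
  have e1 : logDeriv (sqf F c) z0 = 2 * logDeriv F (c + z0) := by
    have hd : HasDerivAt (fun w : ℂ => F (c + w)) (deriv F (c + z0) * 1) z0 :=
      HasDerivAt.comp (h := fun w : ℂ => (c : ℂ) + w) z0 (h.diff (c + z0)).hasDerivAt
        ((hasDerivAt_id z0).const_add _)
    rw [mul_one] at hd
    have h2 : HasDerivAt (sqf F c) (2 * F (c + z0) * deriv F (c + z0)) z0 := by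
      show HasDerivAt (fun w : ℂ => F (c + w) ^ 2) _ z0
      simpa using hd.fun_pow 2
    rw [logDeriv_apply, h2.deriv, logDeriv_apply]
    unfold sqf
    by_cases h0 : F (c + z0) = 0
    · rw [h0]
      simp
    · field_simp
  rw [e1] at h1
  have h2 := h1.mul_left (1 / 2 : ℝ)
  have h3 : (1 / 2 : ℝ) * (2 * logDeriv F (c + z0)).re = (logDeriv F (c + z0)).re := by
    have : (2 * logDeriv F (c + z0)).re = 2 * (logDeriv F (c + z0)).re := by simp
    rw [this]
    ring
  rw [h3] at h2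
  rw [← (shiftE F c).hasSum_iff]
  have e3 : ((fun w : Zf F => (analyticOrderNatAt F (w : ℂ) : ℝ) * (1 / (c + z0 - w)).re) ∘ shiftE F c) =
      fun u : Zf (sqf F c) => 1 / 2 * ((analyticOrderNatAt (sqf F c) (u : ℂ) : ℝ) * (1 / (z0 - u)).re) := by
    funext u
    show (analyticOrderNatAt F ((c : ℂ) + (u : ℂ)) : ℝ) * (1 / (c + z0 - (c + (u : ℂ)))).re = _
    rw [sqf_order h]
    have e2 : (c : ℂ) + z0 - (c + (u : ℂ)) = z0 - u := by ring
    rw [e2]
    push_cast
    ring
  rw [e3]
  exact h2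

lemma logDeriv_conj (h : LF μ ρ A c β D F ε) (s : ℂ) :
    (logDeriv F (starRingEnd ℂ s)).re = (logDeriv F s).re := by
  have e : F = fun z => starRingEnd ℂ (F (starRingEnd ℂ z)) := by
    funext z
    rw [h.conj, Complex.conj_conj]
  have h1 : HasDerivAt (fun z => starRingEnd ℂ (F (starRingEnd ℂ z))) (starRingEnd ℂ (deriv F s))
      (starRingEnd ℂ s) := by
    have h2 := (h.diff s).hasDerivAt
    have h3 := h2.conj_conj
    exact h3
  have h4 : deriv F (starRingEnd ℂ s) = starRingEnd ℂ (deriv F s) := by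
    conv_lhs => rw [e]
    exact h1.deriv
  rw [logDeriv_apply, logDeriv_apply, h4, h.conj, ← map_div₀, Complex.conj_re]

/-- the logarithmic derivative of the Dirichlet series -/
lemma logDeriv_split (h : LF μ ρ A c β D F ε) {R : ℝ} (hR : ∀ s : ℂ, R ≤ s.re → ‖D s - 1‖ ≤ 1 / 100)
    {s : ℂ} (hs1 : c + β + 1 ≤ s.re) (hs2 : R + 1 ≤ s.re) (hs3 : 1 ≤ s.im)
    (hQ : ∀ z ∈ ball s 1, Qs μ ρ A z ≠ 0 ∧ DifferentiableAt ℂ (Qs μ ρ A) z) :
    ‖logDeriv F s - logDeriv (Qs μ ρ A) s‖ ≤ 1 := by
  have hre : ∀ z ∈ ball s 1, c + β < z.re ∧ R ≤ z.re := by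
    intro z hz
    rw [mem_ball, dist_eq_norm] at hz
    have h1 := abs_re_le_norm (z - s)
    have h2 := (abs_le.1 h1).1
    rw [Complex.sub_re] at h2
    constructor <;> linarith
  have hFD : ∀ z ∈ ball s 1, D z = F z / Qs μ ρ A z := by
    intro z hz
    rw [h.eq z (hre z hz).1]
    have := (hQ z hz).1
    rw [eq_div_iff this]
    unfold Qs
    ring
  have hDd : DifferentiableOn ℂ D (ball s 1) := by
    have h1 : DifferentiableOn ℂ (fun z => F z / Qs μ ρ A z) (ball s 1) := fun z hz =>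
      ((h.diff z).div (hQ z hz).2 (hQ z hz).1).differentiableWithinAt
    exact h1.congr hFD
  have hs : s ∈ ball s 1 := mem_ball_self one_pos
  have hDs : DifferentiableAt ℂ D s := hDd.differentiableAt (isOpen_ball.mem_nhds hs)
  have hDne : D s ≠ 0 := h.Dz s (hre s hs).1
  have e1 : logDeriv F s = logDeriv (Qs μ ρ A) s + logDeriv D s := by
    have e : F =ᶠ[𝓝 s] fun z => Qs μ ρ A z * D z := by
      filter_upwards [isOpen_ball.mem_nhds hs] with z hz
      rw [h.eq z (hre z hz).1]
      rfl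
    rw [← logDeriv_mul (f := Qs μ ρ A) (g := D) s (hQ s hs).1 hDne (hQ s hs).2 hDs, logDeriv_apply,
      logDeriv_apply, e.deriv_eq, e.eq_of_nhds]
  rw [e1, add_sub_cancel_left, logDeriv_apply, norm_div]
  have h1 : ‖deriv D s‖ ≤ (1 / 100) / (1 / 2) := by
    have h2 : deriv D s = deriv (fun z => D z - 1) s := by
      rw [deriv_sub_const]
    rw [h2]
    apply Complex.norm_deriv_le_of_forall_mem_sphere_norm_le (by norm_num)
    · apply DifferentiableOn.diffContOnCl
      rw [closure_ball _ (by norm_num)]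
      intro z hz
      have hz' : z ∈ ball s 1 := by
        rw [mem_closedBall] at hz
        rw [mem_ball]
        linarith
      exact ((hDd.differentiableAt (isOpen_ball.mem_nhds hz')).sub_const 1).differentiableWithinAt
    · intro z hz
      have hz' : z ∈ ball s 1 := by
        rw [mem_sphere] at hz
        rw [mem_ball]
        linarith
      exact hR z (hre z hz').2
  have h2 : 99 / 100 ≤ ‖D s‖ := by
    have h3 := hR s (hre s hs).2
    have h4 : ‖(1 : ℂ)‖ ≤ ‖D s‖ + ‖D s - 1‖ := by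
      calc ‖(1 : ℂ)‖ = ‖D s - (D s - 1)‖ := by congr 1; ring
        _ ≤ ‖D s‖ + ‖D s - 1‖ := norm_sub_le _ _
    rw [norm_one] at h4
    linarith
  rw [div_le_one (by linarith)]
  linarith

/-- the logarithmic derivative on a vertical line to the right -/
theorem LF_asy (h : LF μ ρ A c β D F ε) : ∃ x0 : ℝ, β < x0 ∧ ∀ x : ℝ, x0 ≤ x → ∃ C : ℝ, 0 ≤ C ∧
    ∀ y : ℝ, |(logDeriv F (c + (x + y * I))).re - m / 2 * Real.log (2 + |y|)| ≤ C := by
  obtain ⟨C1, T, hC1, hT, hQ⟩ := Qs_ld (μ := μ) (ρ := ρ) h.A0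
  obtain ⟨R, hR⟩ := h.D1
  have hβ := h.β1
  refine ⟨max β (R - c) + 1, by linarith [le_max_left β (R - c)], fun x hx => ?_⟩
  have hxβ : β + 1 ≤ x := by linarith [le_max_left β (R - c)]
  have hxR : R - c + 1 ≤ x := by linarith [le_max_right β (R - c)]
  set T' : ℝ := T + 1 + 2 * (|c + x| + 1) with hT'
  have hT'0 : 5 ≤ T' := by
    have := abs_nonneg (c + x)
    linarith
  have him : ∀ y : ℝ, ((c : ℂ) + (x + y * I)).im = y := by intro y; simp
  have hre : ∀ y : ℝ, ((c : ℂ) + (x + y * I)).re = c + x := by intro y; simp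
  have hm0 : (0 : ℝ) ≤ m := Nat.cast_nonneg m
  -- large heights
  have hbig : ∀ y : ℝ, T' ≤ y → |(logDeriv F (c + (x + y * I))).re - m / 2 * Real.log (2 + |y|)| ≤
      C1 + 1 + m := by
    intro y hy
    have hy0 : 0 < y := by linarith
    set s : ℂ := c + (x + y * I) with hs
    have hsim : s.im = y := him y
    have hsre : s.re = c + x := hre y
    have habs := abs_nonneg (c + x)
    have hcond : ∀ z ∈ ball s 1, T ≤ z.im ∧ |z.re| ≤ 3 / 4 * z.im := by
      intro z hz
      rw [mem_ball, dist_eq_norm] at hz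
      have h1 := (abs_le.1 (abs_im_le_norm (z - s))).1
      have h2 := abs_re_le_norm (z - s)
      rw [Complex.sub_im] at h1
      rw [Complex.sub_re] at h2
      have h3 : |z.re| ≤ |z.re - s.re| + |s.re| := by
        have := abs_add_le (z.re - s.re) s.re
        rwa [sub_add_cancel] at this
      rw [hsre] at h3
      rw [hsim] at h1
      constructor
      · linarith
      · rw [hsre] at h2
        nlinarith
    have hsb : s ∈ ball s 1 := mem_ball_self one_pos
    have h1 := logDeriv_split h hR (s := s) (by rw [hsre]; linarith) (by rw [hsre]; linarith)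
      (by rw [hsim]; linarith) (fun z hz => by
        obtain ⟨g1, g2, -, -⟩ := hQ z (hcond z hz).1 (hcond z hz).2
        exact ⟨g1, g2⟩)
    obtain ⟨-, -, -, h2⟩ := hQ s (hcond s hsb).1 (hcond s hsb).2
    rw [hsim] at h2
    have h3 : ‖logDeriv F s - ((m / 2 * Real.log y : ℝ) : ℂ)‖ ≤ C1 + 1 := by
      calc ‖logDeriv F s - ((m / 2 * Real.log y : ℝ) : ℂ)‖ =
          ‖(logDeriv F s - logDeriv (Qs μ ρ A) s) + (logDeriv (Qs μ ρ A) s - ((m / 2 * Real.log y : ℝ) : ℂ))‖ := by
            congr 1; ring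
        _ ≤ 1 + C1 := (norm_add_le _ _).trans (add_le_add h1 h2)
        _ = C1 + 1 := by ring
    have h4 := (abs_re_le_norm _).trans h3
    rw [Complex.sub_re, Complex.ofReal_re] at h4
    have h5 : |Real.log (2 + |y|) - Real.log y| ≤ 1 := by
      rw [abs_of_pos hy0]
      have e1 : Real.log y ≤ Real.log (2 + y) := Real.log_le_log hy0 (by linarith)
      have e2 : Real.log (2 + y) - Real.log y ≤ 1 := by
        rw [← Real.log_div (by linarith) hy0.ne']
        have e3 : (2 + y) / y = 1 + 2 / y := by field_simp; ring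
        rw [e3]
        have e4 : Real.log (1 + 2 / y) ≤ 2 / y := by
          have := Real.log_le_sub_one_of_pos (show 0 < 1 + 2 / y by positivity)
          linarith
        have e5 : 2 / y ≤ 1 := by
          rw [div_le_one hy0]
          linarith
        linarith
      rw [abs_of_nonneg (by linarith)]
      exact e2
    have h6 : |m / 2 * Real.log (2 + |y|) - m / 2 * Real.log y| ≤ m / 2 := by
      rw [← mul_sub, abs_mul, abs_of_nonneg (by positivity)]
      calc (m : ℝ) / 2 * |Real.log (2 + |y|) - Real.log y| ≤ m / 2 * 1 := by gcongr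
        _ = m / 2 := by ring
    have h7 := abs_sub_le ((logDeriv F s).re) (m / 2 * Real.log y) (m / 2 * Real.log (2 + |y|))
    rw [abs_sub_comm (m / 2 * Real.log y)] at h7
    linarith
  -- bounded heights
  have hcont : ContinuousOn (fun y : ℝ => (logDeriv F (c + (x + y * I))).re) (Set.Icc (-T') T') := by
    intro y _
    have hne : F (c + (x + y * I)) ≠ 0 := h.zero_free (by rw [hre]; linarith)
    have h1 : ContinuousAt (logDeriv F) (c + (x + y * I)) := by
      have ha : AnalyticAt ℂ F (c + (x + y * I)) := h.diff.analyticAt _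
      exact (ha.deriv.div ha hne).continuousAt
    have h2 : ContinuousAt (fun y : ℝ => (c : ℂ) + (x + y * I)) y := by fun_prop
    have h3 : ContinuousAt (fun y : ℝ => logDeriv F ((c : ℂ) + (x + y * I))) y :=
      ContinuousAt.comp (f := fun y : ℝ => (c : ℂ) + (x + y * I)) (g := logDeriv F) h1 h2
    exact (Complex.continuous_re.continuousAt.comp h3).continuousWithinAt
  obtain ⟨K, hK⟩ := isCompact_Icc.exists_bound_of_continuousOn hcont
  refine ⟨C1 + 1 + m + |K| + m / 2 * Real.log (2 + T'), ?_, fun y => ?_⟩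
  · have : 0 ≤ Real.log (2 + T') := Real.log_nonneg (by linarith)
    positivity
  have hlogT : 0 ≤ m / 2 * Real.log (2 + T') := by
    have : 0 ≤ Real.log (2 + T') := Real.log_nonneg (by linarith)
    positivity
  rcases le_total T' y with hy | hy
  · have := hbig y hy
    have := abs_nonneg K
    linarith
  rcases le_total y (-T') with hy2 | hy2
  · have h1 := hbig (-y) (by linarith)
    rw [abs_neg] at h1
    have e1 : starRingEnd ℂ ((c : ℂ) + (x + y * I)) = c + (x + ((-y : ℝ) : ℂ) * I) := by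
      simp only [map_add, map_mul, Complex.conj_ofReal, Complex.conj_I]
      push_cast
      ring
    rw [← e1, logDeriv_conj h] at h1
    have := abs_nonneg K
    linarith
  · have h1 := hK y ⟨hy2, hy⟩
    rw [Real.norm_eq_abs] at h1
    have h2 : |y| ≤ T' := abs_le.2 ⟨by linarith, hy⟩
    have h3 : Real.log (2 + |y|) ≤ Real.log (2 + T') :=
      Real.log_le_log (by have := abs_nonneg y; linarith) (by linarith)
    have h4 : 0 ≤ Real.log (2 + |y|) := Real.log_nonneg (by have := abs_nonneg y; linarith)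
    have h5 : |m / 2 * Real.log (2 + |y|)| ≤ m / 2 * Real.log (2 + T') := by
      rw [abs_of_nonneg (by positivity)]
      gcongr
    have h6 := abs_sub (logDeriv F (c + (x + y * I))).re (m / 2 * Real.log (2 + |y|))
    have := le_abs_self K
    linarith

end Pool.Agent.Helper76.GL
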